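import Mathlib

/-! Cube project, CUBE91 part B: binomial polynomials and their integrality. -/

namespace Pool.Agent.H1.CU

open Polynomial Finset

variable {E : Type*} [Field E] [CharZero E]

/-- The binomial polynomial `X (X-1) ... (X-j+1) / j!`. -/
noncomputable def bp (E : Type*) [Field E] (j : ℕ) : E[X] :=
  C ((j.factorial : E)⁻¹) * descPochhammer E j

theorem fact_mul_bp (j : ℕ) : C (j.factorial : E) * bp E j = descPochhammer E j := by
  unfold bp
  rw [← mul_assoc, ← C_mul, mul_inv_cancel₀ (by exact_mod_cast j.factorial_ne_zero), C_1, one_mul]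

theorem bp_zero : bp E 0 = 1 := by simp [bp]

theorem bp_natDegree (j : ℕ) : (bp E j).natDegree = j := by
  unfold bp
  rw [natDegree_C_mul (inv_ne_zero (by exact_mod_cast j.factorial_ne_zero)),
    descPochhammer_natDegree]

theorem descPochhammer_eval_nat (m j : ℕ) :
    (descPochhammer E j).eval (m : E) = (m.choose j : E) * (j.factorial : E) := by
  rw [descPochhammer_eval_eq_descFactorial, Nat.descFactorial_eq_factorial_mul_choose]
  push_cast
  ring

theorem bp_eval_nat (m j : ℕ) : (bp E j).eval (m : E) = (m.choose j : E) := by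
  have h : (j.factorial : E) ≠ 0 := by exact_mod_cast j.factorial_ne_zero
  unfold bp
  rw [eval_mul, eval_C, descPochhammer_eval_nat]
  field_simp

theorem smeval_descPochhammer (k : ℕ) (r : E[X]) :
    (descPochhammer ℤ k).smeval r = (descPochhammer E k).comp r := by
  rw [← descPochhammer_map (Int.castRingHom E) k, ← aeval_eq_smeval, comp, eval₂_map]
  rw [aeval_def]
  congr 1

theorem descPochhammer_comp_add (k : ℕ) (r s : E[X]) :
    (descPochhammer E k).comp (r + s) = ∑ ij ∈ antidiagonal k,
      (k.choose ij.1 : E[X]) * ((descPochhammer E ij.1).comp r * (descPochhammer E ij.2).comp s) := by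
  rw [← smeval_descPochhammer, Ring.descPochhammer_smeval_add k (Commute.all r s)]
  simp only [smeval_descPochhammer]

/-- Vandermonde: `binom(m + s, k) = sum binom(m, i) binom(s, k - i)`. -/
theorem bp_comp_add_nat (k m : ℕ) (s : E[X]) :
    (bp E k).comp ((m : E[X]) + s) = ∑ ij ∈ antidiagonal k,
      ((m.choose ij.1 : ℕ) : E[X]) * (bp E ij.2).comp s := by
  unfold bp
  rw [mul_comp, descPochhammer_comp_add, C_comp, mul_sum]
  refine sum_congr rfl fun ij hij => ?_
  have hk : ij.1 + ij.2 = k := mem_antidiagonal.mp hij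
  have h1 : (descPochhammer E ij.1).comp (m : E[X]) = C ((m.choose ij.1 : E) * (ij.1.factorial : E)) := by
    have : ((m : ℕ) : E[X]) = C (m : E) := by simp
    rw [this, comp_C, descPochhammer_eval_nat]
  rw [h1, mul_comp, C_comp]
  have h2 : ((k.choose ij.1 : ℕ) : E[X]) = C ((k.choose ij.1 : ℕ) : E) := by simp
  have h3 : ((m.choose ij.1 : ℕ) : E[X]) = C ((m.choose ij.1 : ℕ) : E) := by simp
  rw [h2, h3]
  have key : (k.factorial : E)⁻¹ * ((k.choose ij.1 : ℕ) : E) * ((m.choose ij.1 : E) * (ij.1.factorial : E))
      = ((m.choose ij.1 : ℕ) : E) * (ij.2.factorial : E)⁻¹ := by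
    have hf : (k.factorial : E) = (k.choose ij.1 : E) * (ij.1.factorial : E) * (ij.2.factorial : E) := by
      have := Nat.choose_mul_factorial_mul_factorial (show ij.1 ≤ k by omega)
      have h5 : k - ij.1 = ij.2 := by omega
      rw [h5] at this
      exact_mod_cast this.symm
    have e1 : (k.factorial : E) ≠ 0 := by exact_mod_cast k.factorial_ne_zero
    have e2 : (ij.1.factorial : E) ≠ 0 := by exact_mod_cast ij.1.factorial_ne_zero
    have e3 : (ij.2.factorial : E) ≠ 0 := by exact_mod_cast ij.2.factorial_ne_zero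
    have e4 : (k.choose ij.1 : E) ≠ 0 := by
      rw [hf] at e1
      exact fun h => e1 (by rw [h]; ring)
    rw [hf]
    field_simp
  calc C ((k.factorial : E)⁻¹) * (C ((k.choose ij.1 : ℕ) : E) *
        (C ((m.choose ij.1 : E) * (ij.1.factorial : E)) * (descPochhammer E ij.2).comp s))
      = C ((k.factorial : E)⁻¹ * ((k.choose ij.1 : ℕ) : E) *
          ((m.choose ij.1 : E) * (ij.1.factorial : E))) * (descPochhammer E ij.2).comp s := by
        simp only [C_mul]; ring
    _ = _ := by rw [key, C_mul]; ring

/-- `binom(X - 1, j) = sum_l (-1)^(j-l) binom(X, l)`. -/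
theorem bp_comp_sub_one (j : ℕ) :
    (bp E j).comp (X - 1) = ∑ l ∈ range (j + 1), (-1 : E[X]) ^ (j - l) * bp E l := by
  induction j with
  | zero => simp [bp_zero]
  | succ j ih =>
    have h1 : (bp E (j + 1)).comp (X - 1) = bp E (j + 1) - (bp E j).comp (X - 1) := by
      have hf : ((j + 1).factorial : E) ≠ 0 := by exact_mod_cast (j + 1).factorial_ne_zero
      have hf' : (j.factorial : E) ≠ 0 := by exact_mod_cast j.factorial_ne_zero
      have hj : ((j : E) + 1) ≠ 0 := by exact_mod_cast Nat.succ_ne_zero j
      unfold bp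
      rw [mul_comp, C_comp, descPochhammer_succ_comp_X_sub_one, mul_comp, C_comp]
      rw [mul_sub]
      congr 1
      have : (((j : E[X]) + 1) • (descPochhammer E j).comp (X - 1))
          = C ((j : E) + 1) * (descPochhammer E j).comp (X - 1) := by
        rw [smul_eq_mul]; simp
      rw [this, ← mul_assoc, ← C_mul]
      congr 2
      rw [Nat.factorial_succ]
      push_cast
      field_simp
    rw [h1, ih, sum_range_succ _ (j + 1)]
    simp only [Nat.sub_self, pow_zero, one_mul]
    rw [sub_eq_add_neg, add_comm (bp E (j + 1)), ← sum_neg_distrib]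
    congr 1
    refine sum_congr rfl fun l hl => ?_
    have hl' : l ≤ j := Nat.lt_succ_iff.mp (mem_range.mp hl)
    rw [Nat.succ_sub hl', pow_succ]
    ring

end Pool.Agent.H1.CU
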