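import Pool.Agent.H1.CU.Mor

/-! Cube project: connections induced on generalised horizontal vectors. -/

set_option autoImplicit false

namespace Pool.Agent.H1.CU

open Matrix

/-- A derivation of `F` which preserves the constants. -/
structure DG {E F : Type*} [Field E] [Field F] (cst : E →+* F) where
  DE : E → E
  DF : F → F
  add : ∀ x y, DF (x + y) = DF x + DF y
  mul : ∀ x y, DF (x * y) = DF x * y + x * DF y
  hc : ∀ a, DF (cst a) = cst (DE a)

namespace DG

variable {E F : Type*} [Field E] [Field F] {cst : E →+* F} (D : DG cst)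

theorem zero : D.DF 0 = 0 := by
  have h := D.add 0 0
  rw [add_zero] at h
  exact left_eq_add.mp h

theorem sum {ι : Type*} (s : Finset ι) (f : ι → F) :
    D.DF (∑ i ∈ s, f i) = ∑ i ∈ s, D.DF (f i) := by
  classical
  induction s using Finset.induction_on with
  | empty => simp [D.zero]
  | insert a s ha ih => rw [Finset.sum_insert ha, Finset.sum_insert ha, D.add, ih]

theorem map_mul {n m k : Type*} [Fintype m] (A : Matrix n m F) (B : Matrix m k F) :
    (A * B).map D.DF = A.map D.DF * B + A * B.map D.DF := by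
  ext i j
  simp only [Matrix.map_apply, Matrix.mul_apply, Matrix.add_apply]
  rw [D.sum, ← Finset.sum_add_distrib]
  exact Finset.sum_congr rfl fun l _ => D.mul _ _

theorem map_add {n m : Type*} (A B : Matrix n m F) :
    (A + B).map D.DF = A.map D.DF + B.map D.DF := by
  ext i j
  exact D.add _ _

theorem map_cst {n m : Type*} (A : Matrix n m E) :
    (A.map cst).map D.DF = (A.map D.DE).map cst := by
  ext i j
  exact D.hc _

theorem DE_one : D.DE 1 = 0 := by
  have h1 := D.mul 1 1
  rw [mul_one, mul_one, one_mul] at h1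
  have h2 : D.DF 1 = 0 := by linear_combination -h1
  have h3 := D.hc 1
  rw [_root_.map_one, h2] at h3
  exact cst.injective (by rw [← h3, _root_.map_zero])

theorem DE_zero : D.DE 0 = 0 := by
  have h3 := D.hc 0
  rw [_root_.map_zero, D.zero] at h3
  exact cst.injective (by rw [← h3, _root_.map_zero])

theorem map_one {n : Type*} [DecidableEq n] : (1 : Matrix n n F).map D.DF = 0 := by
  have h : (1 : Matrix n n F) = (1 : Matrix n n E).map cst := by simp
  rw [h, D.map_cst]
  ext i j
  by_cases hij : i = j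
  · subst hij; simp [D.DE_one]
  · simp [Matrix.one_apply_ne hij, D.DE_zero]

/-- Flatness of the induced connection. -/
theorem flat_conn {n q : Type*} [Fintype n] [Fintype q] [DecidableEq q]
    (α β : DG cst) (hαβ : ∀ x, α.DF (β.DF x) = β.DF (α.DF x))
    {Ga Gb : Matrix n n F} (hf : Gb.map α.DF + Ga * Gb = Ga.map β.DF + Gb * Ga)
    {Z Z' : Matrix n q F} (hZ : Z'ᵀ * Z = 1) {Wa Wb : Matrix q q E}
    (ha : Z.map α.DF + Ga * Z = Z * Wa.map cst) (hb : Z.map β.DF + Gb * Z = Z * Wb.map cst) :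
    Wb.map α.DE + Wa * Wb = Wa.map β.DE + Wb * Wa := by
  have key : ∀ (α β : DG cst) {Ga Gb : Matrix n n F} {Wa Wb : Matrix q q E}
      (_ : Z.map α.DF + Ga * Z = Z * Wa.map cst) (_ : Z.map β.DF + Gb * Z = Z * Wb.map cst),
      Z * (Wb.map α.DE + Wa * Wb).map cst = (Z.map β.DF).map α.DF
        + (Gb.map α.DF + Ga * Gb) * Z + (Gb * Z.map α.DF + Ga * Z.map β.DF) := by
    intro α β Ga Gb Wa Wb ha hb
    have h1 : (Z.map β.DF + Gb * Z).map α.DF + Ga * (Z.map β.DF + Gb * Z)
        = (Z * Wb.map cst).map α.DF + Ga * (Z * Wb.map cst) := by rw [hb]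
    rw [α.map_add, α.map_mul, α.map_mul, α.map_cst] at h1
    have h2 : Z.map α.DF * Wb.map cst + Z * (Wb.map α.DE).map cst + Ga * (Z * Wb.map cst)
        = Z * (Wb.map α.DE + Wa * Wb).map cst := by
      have h3 : (Wb.map α.DE + Wa * Wb).map cst
          = (Wb.map α.DE).map cst + Wa.map cst * Wb.map cst := by
        rw [Matrix.map_add _ (_root_.map_add cst), Matrix.map_mul]
      rw [h3, Matrix.mul_add, ← Matrix.mul_assoc Z, ← ha, Matrix.add_mul, ← Matrix.mul_assoc]
      abel
    rw [h2] at h1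
    rw [← h1]
    simp only [Matrix.add_mul, Matrix.mul_add, Matrix.mul_assoc]
    abel
  have h1 := key α β ha hb
  have h2 := key β α hb ha
  have h3 : (Z.map β.DF).map α.DF = (Z.map α.DF).map β.DF := by
    ext i j
    exact hαβ _
  have h4 : Z * (Wb.map α.DE + Wa * Wb).map cst = Z * (Wa.map β.DE + Wb * Wa).map cst := by
    rw [h1, h2, h3, hf, add_comm (Gb * Z.map α.DF)]
  have h5 := congrArg (fun M => Z'ᵀ * M) h4
  simp only [← Matrix.mul_assoc, hZ, Matrix.one_mul] at h5
  ext i j
  have h6 := congrFun (congrFun h5 i) j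
  exact cst.injective h6

/-- The dual connection. -/
theorem dual_conn {n q : Type*} [Fintype n] [Fintype q] [DecidableEq q]
    (α : DG cst) {Ga : Matrix n n F} {Z Z' : Matrix n q F} (hZ : Z'ᵀ * Z = 1)
    {Wa Wb : Matrix q q E} (ha : Z.map α.DF + Ga * Z = Z * Wa.map cst)
    (hb : Z'.map α.DF - Gaᵀ * Z' = Z' * Wb.map cst) : Wb = -Waᵀ := by
  have h1 : (Z'ᵀ * Z).map α.DF = 0 := by rw [hZ, α.map_one]
  rw [α.map_mul] at h1
  have hT : Z'ᵀ.map α.DF = (Z'.map α.DF)ᵀ := rfl
  have e1 : Z.map α.DF = Z * Wa.map cst - Ga * Z := by rw [← ha]; abel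
  have e2 : Z'.map α.DF = Z' * Wb.map cst + Gaᵀ * Z' := by rw [← hb]; abel
  rw [hT, e1, e2, Matrix.transpose_add, Matrix.transpose_mul, Matrix.transpose_mul,
    Matrix.transpose_transpose, Matrix.add_mul, Matrix.mul_assoc, hZ, Matrix.mul_one,
    Matrix.mul_sub, ← Matrix.mul_assoc Z'ᵀ Z, hZ, Matrix.one_mul, Matrix.mul_assoc Z'ᵀ Ga] at h1
  have h2 : (Wb.map cst)ᵀ + Wa.map cst = 0 := by rw [← h1]; abel
  ext i j
  have h3 := congrFun (congrFun h2 j) i
  simp only [Matrix.add_apply, Matrix.transpose_apply, Matrix.map_apply, Matrix.zero_apply] at h3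
  rw [← _root_.map_add] at h3
  have h4 : Wb i j + Wa j i = 0 := cst.injective (by rw [h3, _root_.map_zero])
  rw [Matrix.neg_apply, Matrix.transpose_apply]
  exact eq_neg_of_add_eq_zero_left h4

end DG

namespace LF

variable {E F : Type*} [Field E] [Field F] {L : LF E F}
  {n q : Type*} [Fintype n] [DecidableEq n] [Fintype q] [DecidableEq q]

/-- `nabla` as a `DG` -/
def dgNab (L : LF E F) : DG L.cst where
  DE := fun _ => 0
  DF := L.nab
  add := L.nab_add
  mul := L.nab_mul
  hc := fun a => by rw [L.nab_cst, _root_.map_zero]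

/-- a coefficientwise derivation as a `DG` -/
def DD.dg (D : L.DD) : DG L.cst where
  DE := D.DE
  DF := D.DF
  add := D.add
  mul := D.mul
  hc := D.cst

omit [DecidableEq n] [DecidableEq q] in
theorem comm_eq {D : L.DD} {G GD : Matrix n n F} {B : Matrix q q E} {Y : Matrix n q F}
    (hD : Comm L D G GD) (hY : L.dM Y + G * Y = Y * B.map L.cst) :
    L.dM (D.M Y + GD * Y) + G * (D.M Y + GD * Y)
      = (D.M Y + GD * Y) * B.map L.cst + Y * (B.map D.DE).map L.cst := by
  have e0 : L.dM Y = Y * B.map L.cst - G * Y := by rw [← hY]; abel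
  have e1 : L.dM (D.M Y) = D.M Y * B.map L.cst + Y * (B.map D.DE).map L.cst
      - (D.M G * Y + G * D.M Y) := by
    rw [← D.M_dM, e0, D.M_sub, D.M_mul, D.M_mul, D.M_cst]
  unfold Comm at hD
  have e2 : L.dM GD = D.M G + GD * G - G * GD := by rw [← hD]; abel
  rw [dM_add, e1, dM_mul, e0, e2]
  simp only [Matrix.sub_mul, Matrix.add_mul, Matrix.mul_add, Matrix.mul_sub, Matrix.mul_assoc]
  abel

omit [DecidableEq n] [Fintype q] [DecidableEq q] in
theorem op_col (G : Matrix n n F) (W : Matrix n q F) (j : q) :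
    L.op G (fun i => W i j) = fun i => (L.dM W + G * W) i j := rfl

omit [DecidableEq n] in
theorem op_kill {G : Matrix n n F} {B S0 : Matrix q q E} {Y W : Matrix n q F}
    (hY : L.dM Y + G * Y = Y * B.map L.cst)
    (hW : L.dM W + G * W = W * B.map L.cst + Y * S0.map L.cst) (k : ℕ) :
    ∃ S : Matrix q q E, ∀ j, (L.op G)^[k] (fun i => W i j)
      = fun i => (W * (B ^ k).map L.cst + Y * S.map L.cst) i j := by
  induction k with
  | zero =>
    refine ⟨0, fun j => ?_⟩
    have h1 : (B ^ 0).map L.cst = (1 : Matrix q q F) := by rw [pow_zero]; simp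
    have h2 : (0 : Matrix q q E).map L.cst = 0 := by ext i j; simp
    rw [h1, h2, Matrix.mul_one, Matrix.mul_zero, add_zero]
    rfl
  | succ k ih =>
    obtain ⟨S, hS⟩ := ih
    refine ⟨S0 * B ^ k + B * S, fun j => ?_⟩
    rw [Function.iterate_succ_apply', hS, op_col]
    have e : L.dM (W * (B ^ k).map L.cst + Y * S.map L.cst)
        + G * (W * (B ^ k).map L.cst + Y * S.map L.cst)
        = W * (B ^ (k + 1)).map L.cst + Y * (S0 * B ^ k + B * S).map L.cst := by
      have e1 : L.dM W = W * B.map L.cst + Y * S0.map L.cst - G * W := by rw [← hW]; abel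
      have e2 : L.dM Y = Y * B.map L.cst - G * Y := by rw [← hY]; abel
      have e3 : (S0 * B ^ k + B * S).map L.cst
          = S0.map L.cst * (B ^ k).map L.cst + B.map L.cst * S.map L.cst := by
        rw [Matrix.map_add _ (_root_.map_add L.cst), Matrix.map_mul, Matrix.map_mul]
      have e4 : (B ^ (k + 1)).map L.cst = B.map L.cst * (B ^ k).map L.cst := by
        rw [pow_succ', Matrix.map_mul]
      rw [dM_add, dM_mul, dM_mul, dM_cst, dM_cst, Matrix.mul_zero, Matrix.mul_zero, add_zero,
        add_zero, e1, e2, e3, e4]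
      simp only [Matrix.sub_mul, Matrix.add_mul, Matrix.mul_add, Matrix.mul_assoc]
      abel
    rw [e]

theorem op_nilp {G : Matrix n n F} {B S0 : Matrix q q E} {Y W : Matrix n q F}
    (hB : IsNilpotent B) (hY : L.dM Y + G * Y = Y * B.map L.cst)
    (hW : L.dM W + G * W = W * B.map L.cst + Y * S0.map L.cst) :
    ∃ N : ℕ, ∀ j, (L.op G)^[N] (fun i => W i j) = 0 := by
  obtain ⟨k, hk⟩ := hB
  obtain ⟨S, hS⟩ := op_kill hY hW k
  refine ⟨k + k, fun j => ?_⟩
  have h0 : (0 : Matrix q q E).map L.cst = 0 := by ext i j; simp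
  rw [Function.iterate_add_apply, hS, hk, h0, Matrix.mul_zero, zero_add]
  have hYS : (fun i => (Y * S.map L.cst) i j) = Y *ᵥ (L.cst ∘ fun c => S c j) := by
    ext i
    rfl
  rw [hYS, op_flat hY, hk, Matrix.zero_mulVec]
  have : (L.cst ∘ (0 : q → E)) = 0 := by ext i; simp
  rw [this, Matrix.mulVec_zero]

end LF

end Pool.Agent.H1.CU
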