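import Mathlib

/-! Cube project, CUBE91 part B.5: Fitting decomposition of a square matrix over a field. -/

namespace Pool.Agent.H1.CU

open Matrix Module

variable {E : Type*} [Field E] {n : Type*} [Fintype n] [DecidableEq n]

/-- Fitting decomposition of a matrix: a change of basis makes it block diagonal with a nilpotent
and an invertible block. -/
theorem fitting (A : Matrix n n E) :
    ∃ (a b : ℕ) (P : Matrix n (Fin a ⊕ Fin b) E) (Q : Matrix (Fin a ⊕ Fin b) n E)
      (A1 : Matrix (Fin a) (Fin a) E) (A2 : Matrix (Fin b) (Fin b) E),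
      P * Q = 1 ∧ Q * P = 1 ∧ Q * A * P = fromBlocks A1 0 0 A2 ∧ IsNilpotent A1 ∧ IsUnit A2 := by
  set f : (n → E) →ₗ[E] (n → E) := Matrix.toLin' A with hf
  obtain ⟨k0, hk0⟩ := Filter.eventually_atTop.mp (f.eventually_isCompl_ker_pow_range_pow)
  set k := k0 + 1 with hk
  have hc : IsCompl (LinearMap.ker (f ^ k)) (LinearMap.range (f ^ k)) := hk0 k (by omega)
  set K := LinearMap.ker (f ^ k) with hK
  set R := LinearMap.range (f ^ k) with hR
  have hcomm : ∀ x, (f ^ k) (f x) = f ((f ^ k) x) := by
    intro x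
    have : f ^ k * f = f * f ^ k := (Commute.pow_self f k).eq
    exact congrArg (fun g : (n → E) →ₗ[E] (n → E) => g x) this
  have hfK : ∀ x ∈ K, f x ∈ K := by
    intro x hx
    rw [hK, LinearMap.mem_ker] at hx ⊢
    rw [hcomm, hx, map_zero]
  have hfR : ∀ x ∈ R, f x ∈ R := by
    rintro x ⟨y, rfl⟩
    exact ⟨f y, hcomm y⟩
  set fK : K →ₗ[E] K := f.restrict hfK with hfKdef
  set fR : R →ₗ[E] R := f.restrict hfR with hfRdef
  have hnil : IsNilpotent fK := by
    refine ⟨k, ?_⟩
    ext x
    have h1 : ∀ m : ℕ, ((fK ^ m) x : n → E) = (f ^ m) (x : n → E) := by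
      intro m
      induction m with
      | zero => simp
      | succ m ih =>
        rw [pow_succ', pow_succ']
        simp only [Module.End.mul_apply]
        rw [← ih]
        rfl
    have h2 : (f ^ k) (x : n → E) = 0 := LinearMap.mem_ker.mp x.2
    simp only [h1 k, h2, LinearMap.zero_apply, ZeroMemClass.coe_zero]
  have hinj : Function.Injective fR := by
    rw [← LinearMap.ker_eq_bot, LinearMap.ker_eq_bot']
    intro x hx
    have h1 : f (x : n → E) = 0 := congrArg Subtype.val hx
    have h2 : (x : n → E) ∈ K := by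
      rw [hK, LinearMap.mem_ker, hk, pow_succ]
      simp only [Module.End.mul_apply]
      rw [h1, map_zero]
    have h3 : (x : n → E) ∈ K ⊓ R := ⟨h2, x.2⟩
    rw [hc.inf_eq_bot] at h3
    exact Subtype.ext (by simpa using h3)
  set e : (K × R) ≃ₗ[E] (n → E) := Submodule.prodEquivOfIsCompl K R hc with he
  set bK := Module.finBasis E K
  set bR := Module.finBasis E R
  set b := bK.prod bR with hb
  set b' := b.map e with hb'
  have hconj : ∀ z : K × R, f (e z) = e ((fK.prodMap fR) z) := by
    rintro ⟨x, y⟩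
    simp only [he, Submodule.coe_prodEquivOfIsCompl', LinearMap.prodMap_apply, map_add]
    rfl
  refine ⟨finrank E K, finrank E R, LinearMap.toMatrix b' (Pi.basisFun E n) LinearMap.id,
    LinearMap.toMatrix (Pi.basisFun E n) b' LinearMap.id, LinearMap.toMatrix bK bK fK,
    LinearMap.toMatrix bR bR fR, ?_, ?_, ?_, ?_, ?_⟩
  · rw [← LinearMap.toMatrix_comp (Pi.basisFun E n) b' (Pi.basisFun E n)]
    simp [LinearMap.toMatrix_id]
  · rw [← LinearMap.toMatrix_comp b' (Pi.basisFun E n) b']
    simp [LinearMap.toMatrix_id]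
  · have hA : A = LinearMap.toMatrix (Pi.basisFun E n) (Pi.basisFun E n) f := by
      rw [LinearMap.toMatrix_eq_toMatrix', hf, LinearMap.toMatrix'_toLin']
    rw [hA, ← LinearMap.toMatrix_comp (Pi.basisFun E n) (Pi.basisFun E n) b',
      ← LinearMap.toMatrix_comp b' (Pi.basisFun E n) b', ← LinearMap.toMatrix_prodMap bK bR fK fR]
    simp only [LinearMap.id_comp, LinearMap.comp_id]
    ext i j
    rw [LinearMap.toMatrix_apply, LinearMap.toMatrix_apply, hb', Basis.map_apply, hconj,
      Basis.map_repr]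
    simp [hb]
  · obtain ⟨m, hm⟩ := hnil
    refine ⟨m, ?_⟩
    have := congrArg (LinearMap.toMatrix bK bK) hm
    rw [map_zero] at this
    rw [← this]
    exact (map_pow (LinearMap.toMatrixAlgEquiv bK) fK m).symm
  · have hu : IsUnit fR := by
      rw [Module.End.isUnit_iff]
      exact ⟨hinj, (LinearMap.injective_iff_surjective).mp hinj⟩
    exact hu.map (LinearMap.toMatrixAlgEquiv bR)

end Pool.Agent.H1.CU
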