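import Mathlib

/-! Cube project, CUBE91 part B.6: the Sylvester operator `X ↦ A X - X B`. -/

namespace Pool.Agent.H1.CU

open Matrix

variable {R : Type*} [CommRing R] {n q : Type*} [Fintype n] [DecidableEq n] [Fintype q]
  [DecidableEq q]

/-- `A` invertible and `B` nilpotent: `A X = X B` only for `X = 0`. -/
theorem sylv_inj {A : Matrix n n R} {B : Matrix q q R} (hA : IsUnit A) (hB : IsNilpotent B)
    {X : Matrix n q R} (h : A * X = X * B) : X = 0 := by
  obtain ⟨k, hk⟩ := hB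
  obtain ⟨u, rfl⟩ := hA
  have hpow : ∀ m : ℕ, (u : Matrix n n R) ^ m * X = X * B ^ m := by
    intro m
    induction m with
    | zero => simp
    | succ m ih =>
      rw [pow_succ, Matrix.mul_assoc, h, ← Matrix.mul_assoc, ih, Matrix.mul_assoc, ← pow_succ]
  have h1 := hpow k
  rw [hk, Matrix.mul_zero] at h1
  have h2 : ((u ^ k : (Matrix n n R)ˣ)⁻¹ : (Matrix n n R)ˣ).val * ((u : Matrix n n R) ^ k * X) = X := by
    rw [← Matrix.mul_assoc, ← Units.val_pow_eq_pow_val, Units.inv_mul, Matrix.one_mul]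
  rw [← h2, h1, Matrix.mul_zero]

/-- `A` invertible and `B` nilpotent: `A X - X B = Y` is solvable. -/
theorem sylv_surj {A : Matrix n n R} {B : Matrix q q R} (hA : IsUnit A) (hB : IsNilpotent B)
    (Y : Matrix n q R) : ∃ X : Matrix n q R, A * X - X * B = Y := by
  obtain ⟨k, hk⟩ := hB
  obtain ⟨u, rfl⟩ := hA
  set v : Matrix n n R := (u⁻¹ : (Matrix n n R)ˣ).val with hv
  have huv : (u : Matrix n n R) * v = 1 := Units.mul_inv u
  refine ⟨∑ i ∈ Finset.range k, v ^ (i + 1) * Y * B ^ i, ?_⟩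
  have h1 : (u : Matrix n n R) * ∑ i ∈ Finset.range k, v ^ (i + 1) * Y * B ^ i
      = ∑ i ∈ Finset.range k, v ^ i * Y * B ^ i := by
    rw [Matrix.mul_sum]
    refine Finset.sum_congr rfl fun i _ => ?_
    rw [pow_succ', Matrix.mul_assoc, Matrix.mul_assoc, ← Matrix.mul_assoc, huv, Matrix.one_mul,
      Matrix.mul_assoc]
  have h2 : (∑ i ∈ Finset.range k, v ^ (i + 1) * Y * B ^ i) * B
      = ∑ i ∈ Finset.range k, v ^ (i + 1) * Y * B ^ (i + 1) := by
    rw [Matrix.sum_mul]
    refine Finset.sum_congr rfl fun i _ => ?_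
    rw [Matrix.mul_assoc, ← pow_succ]
  rw [h1, h2, ← Finset.sum_sub_distrib, Finset.sum_range_sub', hk]
  simp

end Pool.Agent.H1.CU
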