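import Pool.Agent.H1.CU.LF
import Pool.Agent.H1.CU.Sylv

/-! Cube project, CUBE91 part B.6: flat sections, uniqueness. -/

namespace Pool.Agent.H1.CU

open Matrix

variable {E F : Type*} [Field E] [Field F]

namespace LF

variable (L : LF E F)

theorem ex_lam_zpow (m : ℤ) : L.ex (L.lam ^ m) = HahnSeries.single m 1 := by
  rw [map_zpow₀, L.ex_lam]
  exact (RatFunc.single_zpow m).symm

theorem coeff_lam_zpow_mul (m : ℤ) (x : F) (i : ℤ) :
    (L.ex (L.lam ^ m * x)).coeff (i + m) = (L.ex x).coeff i := by
  rw [map_mul, L.ex_lam_zpow, HahnSeries.coeff_single_mul_add, one_mul]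

theorem nab_lam_zpow (m : ℤ) : L.nab (L.lam ^ m) = (m : F) * L.lam ^ m := by
  apply L.ex_inj
  ext i
  have hm : (m : F) = L.cst (m : E) := by simp
  rw [L.ex_nab, hm, map_mul, L.ex_cst, L.ex_lam_zpow, HahnSeries.C_mul_eq_smul,
    HahnSeries.coeff_smul, smul_eq_mul]
  by_cases h : i = m
  · subst h; rfl
  · rw [HahnSeries.coeff_single_of_ne h, mul_zero, mul_zero]

/-- the coefficient matrix -/
noncomputable def cf {n q : Type*} (i : ℤ) (Z : Matrix n q F) : Matrix n q E :=
  Z.map fun x => (L.ex x).coeff i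

theorem cf_zero_eq {n q : Type*} (Z : Matrix n q F) : L.cf 0 Z = L.val Z := rfl

theorem exists_low {n q : Type*} [Fintype n] [Fintype q] (Z : Matrix n q F) :
    ∃ N : ℕ, ∀ i : ℤ, i < -(N : ℤ) → L.cf i Z = 0 := by
  classical
  have h : ∀ p : n × q, ∃ N : ℕ, ∀ i : ℤ, i < -(N : ℤ) → (L.ex (Z p.1 p.2)).coeff i = 0 := by
    intro p
    refine ⟨(L.ex (Z p.1 p.2)).order.natAbs, fun i hi => ?_⟩
    by_contra hne
    have := HahnSeries.order_le_of_coeff_ne_zero hne
    omega
  choose N hN using h
  refine ⟨Finset.univ.sup N, fun i hi => ?_⟩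
  ext a b
  refine hN (a, b) i ?_
  have := Finset.le_sup (f := N) (Finset.mem_univ (a, b))
  omega

theorem eq_zero_of_cf {n q : Type*} {Z : Matrix n q F} (h : ∀ i, L.cf i Z = 0) : Z = 0 := by
  ext a b
  apply L.ex_inj
  rw [Matrix.zero_apply, map_zero]
  ext i
  exact congrFun (congrFun (h i) a) b

variable {n q : Type*} [Fintype n] [DecidableEq n] [Fintype q] [DecidableEq q]

omit [Field F] [Fintype q] [DecidableEq q] in
theorem scalar_mul_eq (r : E) (M : Matrix n q E) : scalar n r * M = r • M := by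
  ext a b
  simp [Matrix.diagonal_mul]

/-- The lowest coefficient equation. -/
theorem low_eq {G : Matrix n n F} (hG : L.Reg G) {B : Matrix q q E} {Z R : Matrix n q F}
    (hZ : L.dM Z + G * Z = Z * B.map L.cst + R) {m : ℤ} (hlow : ∀ i < m, L.cf i Z = 0)
    (hR : ∀ i < m, L.cf i R = 0) :
    (scalar n (m : E) + L.val G) * L.cf m Z = L.cf m Z * B + L.cf m R := by
  set Z' : Matrix n q F := L.lam ^ (-m) • Z with hZ'
  set R' : Matrix n q F := L.lam ^ (-m) • R with hR'
  have hshift : ∀ (W : Matrix n q F) (i : ℤ), L.cf i (L.lam ^ (-m) • W) = L.cf (i + m) W := by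
    intro W i
    ext a b
    have := L.coeff_lam_zpow_mul (-m) (W a b) (i + m)
    simpa [cf] using this
  have hregZ : L.Reg Z' := by
    intro a b i hi
    have := hshift Z i
    rw [hlow (i + m) (by omega)] at this
    exact congrFun (congrFun this a) b
  have hregR : L.Reg R' := by
    intro a b i hi
    have := hshift R i
    rw [hR (i + m) (by omega)] at this
    exact congrFun (congrFun this a) b
  have hvZ : L.val Z' = L.cf m Z := by
    rw [← L.cf_zero_eq, hZ', hshift, zero_add]
  have hvR : L.val R' = L.cf m R := by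
    rw [← L.cf_zero_eq, hR', hshift, zero_add]
  have hd : L.dM Z' = (-(m : F)) • Z' + L.lam ^ (-m) • L.dM Z := by
    ext a b
    simp only [dM, hZ', Matrix.map_apply, Matrix.smul_apply, Matrix.add_apply, smul_eq_mul]
    rw [L.nab_mul, L.nab_lam_zpow]
    push_cast
    ring
  have heq : L.dM Z' + (L.cst (m : E)) • Z' + G * Z' = Z' * B.map L.cst + R' := by
    have h1 : L.lam ^ (-m) • (L.dM Z + G * Z) = L.lam ^ (-m) • (Z * B.map L.cst + R) := by rw [hZ]
    rw [smul_add, smul_add] at h1
    have h2 : L.lam ^ (-m) • (G * Z) = G * Z' := by rw [hZ', Matrix.mul_smul]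
    have h3 : L.lam ^ (-m) • (Z * B.map L.cst) = Z' * B.map L.cst := by
      rw [hZ', Matrix.smul_mul]
    rw [h2, h3] at h1
    rw [← hR'] at h1
    rw [← h1, hd]
    have h4 : L.cst (m : E) = (m : F) := by simp
    rw [h4, neg_smul]
    abel
  have hdv : L.val (L.dM Z') = 0 := by
    ext a b
    exact L.v0_nab _
  have hscal : L.val ((L.cst (m : E)) • Z') = scalar n (m : E) * L.val Z' := by
    ext a b
    rw [scalar_mul_eq]
    simp only [val, Matrix.map_apply, Matrix.smul_apply, smul_eq_mul]
    rw [L.v0_mul (L.reg_cst _) (hregZ a b), L.v0_cst]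
  have h5 := congrArg L.val heq
  rw [val_add, val_add, hdv, zero_add, hscal, val_mul hG hregZ, val_add,
    val_mul hregZ (Reg.map_cst B), val_cst, hvZ, hvR, ← Matrix.add_mul] at h5
  exact h5

/-- Regularity of solutions with a regular inhomogeneous term. -/
theorem reg_of_eq {G : Matrix n n F} (hG : L.Reg G) {B : Matrix q q E} (hB : IsNilpotent B)
    {Z R : Matrix n q F} (hZ : L.dM Z + G * Z = Z * B.map L.cst + R) (hR : L.Reg R)
    (hinv : ∀ m : ℤ, m < 0 → IsUnit (scalar n (m : E) + L.val G)) : L.Reg Z := by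
  obtain ⟨N, hN⟩ := L.exists_low Z
  have hR' : ∀ i : ℤ, i < 0 → L.cf i R = 0 := by
    intro i hi
    ext a b
    exact hR a b i hi
  have key : ∀ k : ℕ, k ≤ N → ∀ i : ℤ, i < -(N : ℤ) + k → L.cf i Z = 0 := by
    intro k
    induction k with
    | zero => intro _ i hi; exact hN i (by simpa using hi)
    | succ k ih =>
      intro hk i hi
      by_cases hlt : i < -(N : ℤ) + k
      · exact ih (by omega) i hlt
      · have hi' : i = -(N : ℤ) + k := by push_cast at hi; omega
        have hlow := ih (by omega)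
        have h := L.low_eq hG hZ (m := -(N : ℤ) + k) hlow (fun j hj => hR' j (by omega))
        rw [hR' _ (by omega), add_zero] at h
        rw [hi']
        exact sylv_inj (hinv _ (by omega)) hB h
  intro a b i hi
  have := key N le_rfl i (by omega)
  exact congrFun (congrFun this a) b

/-- Uniqueness: a solution of the homogeneous equation with value `0` vanishes. -/
theorem eq_zero_of_eq {G : Matrix n n F} (hG : L.Reg G) {B : Matrix q q E} (hB : IsNilpotent B)
    {Z : Matrix n q F} (hZ : L.dM Z + G * Z = Z * B.map L.cst) (hreg : L.Reg Z)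
    (h0 : L.val Z = 0) (hinv : ∀ m : ℤ, 0 < m → IsUnit (scalar n (m : E) + L.val G)) : Z = 0 := by
  have hZ' : L.dM Z + G * Z = Z * B.map L.cst + 0 := by rw [add_zero]; exact hZ
  have hzero : ∀ i, L.cf i (0 : Matrix n q F) = 0 := by
    intro i
    ext a b
    simp [cf]
  have key : ∀ k : ℕ, ∀ i : ℤ, i < (k : ℤ) + 1 → L.cf i Z = 0 := by
    intro k
    induction k with
    | zero =>
      intro i hi
      rcases lt_or_eq_of_le (show i ≤ 0 by simpa using Int.lt_add_one_iff.mp hi) with h | h
      · ext a b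
        exact hreg a b i h
      · subst h
        exact h0
    | succ k ih =>
      intro i hi
      by_cases hlt : i < (k : ℤ) + 1
      · exact ih i hlt
      · have hi' : i = (k : ℤ) + 1 := by push_cast at hi; omega
        have h := L.low_eq hG hZ' (m := (k : ℤ) + 1) ih (fun j _ => hzero j)
        rw [hzero, add_zero] at h
        rw [hi']
        exact sylv_inj (hinv _ (by omega)) hB h
  refine L.eq_zero_of_cf fun i => ?_
  exact key i.toNat i (by omega)

end LF

end Pool.Agent.H1.CU
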