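import Mathlib

/-! Cube project, CUBE91 part B.5: the measure for the shearing procedure. -/

namespace Pool.Agent.H1.CU

open Matrix Polynomial

variable {E : Type*} [Field E]

open Classical in
/-- absolute value of an integer root, `0` for the other elements -/
noncomputable def iv (r : E) : ℕ := if h : ∃ k : ℤ, (k : E) = r then h.choose.natAbs else 0

theorem iv_int [CharZero E] (k : ℤ) : iv (k : E) = k.natAbs := by
  unfold iv
  have h : ∃ k' : ℤ, (k' : E) = (k : E) := ⟨k, rfl⟩
  rw [dif_pos h]
  have := h.choose_spec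
  rw [Int.cast_inj.mp this]

/-- sum of the absolute values of the integer roots -/
noncomputable def meas (P : E[X]) : ℕ := (P.roots.map iv).sum

theorem meas_mul {P Q : E[X]} (hP : P ≠ 0) (hQ : Q ≠ 0) : meas (P * Q) = meas P + meas Q := by
  unfold meas
  rw [roots_mul (mul_ne_zero hP hQ), Multiset.map_add, Multiset.sum_add]

theorem meas_X_sub_C_pow (r : E) (a : ℕ) : meas ((X - C r) ^ a) = a * iv r := by
  unfold meas
  rw [roots_pow, roots_X_sub_C, Multiset.map_nsmul, Multiset.sum_nsmul]
  simp

theorem charpoly_nil {a : Type*} [Fintype a] [DecidableEq a] {A : Matrix a a E}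
    (hA : IsNilpotent A) : A.charpoly = X ^ Fintype.card a := by
  have h := isNilpotent_charpoly_sub_pow_of_isNilpotent hA
  exact sub_eq_zero.mp h.eq_zero

theorem charpoly_nil_add {a : Type*} [Fintype a] [DecidableEq a] {A : Matrix a a E}
    (hA : IsNilpotent A) (r : E) : (A + scalar a r).charpoly = (X - C r) ^ Fintype.card a := by
  have h := charpoly_sub_scalar A (-r)
  rw [charpoly_nil hA] at h
  have h1 : A - scalar a (-r) = A + scalar a r := by
    rw [map_neg, sub_neg_eq_add]
  rw [h1] at h
  rw [h]
  simp [sub_eq_add_neg]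

theorem card_eq_of_inv {n m : Type*} [Fintype n] [Fintype m] [DecidableEq n] [DecidableEq m]
    {P : Matrix n m E} {Q : Matrix m n E} (hPQ : P * Q = 1) (hQP : Q * P = 1) :
    Fintype.card n = Fintype.card m := by
  apply le_antisymm
  · calc Fintype.card n = (1 : Matrix n n E).rank := by rw [rank_one]
      _ = (P * Q).rank := by rw [hPQ]
      _ ≤ P.rank := rank_mul_le_left P Q
      _ ≤ Fintype.card m := rank_le_card_width P
  · calc Fintype.card m = (1 : Matrix m m E).rank := by rw [rank_one]
      _ = (Q * P).rank := by rw [hQP]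
      _ ≤ Q.rank := rank_mul_le_left Q P
      _ ≤ Fintype.card n := rank_le_card_width Q

theorem charpoly_conj {n m : Type*} [Fintype n] [Fintype m] [DecidableEq n] [DecidableEq m]
    {P : Matrix n m E} {Q : Matrix m n E} (hPQ : P * Q = 1) (hQP : Q * P = 1) (M : Matrix n n E) :
    (Q * M * P).charpoly = M.charpoly := by
  have h := charpoly_mul_comm' (Q * M) P
  rw [← Matrix.mul_assoc, hPQ, Matrix.one_mul, card_eq_of_inv hPQ hQP] at h
  exact mul_left_cancel₀ (pow_ne_zero _ X_ne_zero) h

/-- a Fitting block: `A2` invertible means that `r` is not a root for `A2 + r` -/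
theorem charpoly_unit_add_eval {b : Type*} [Fintype b] [DecidableEq b] {A : Matrix b b E}
    (hA : IsUnit A) (r : E) : (A + scalar b r).charpoly.eval r ≠ 0 := by
  rw [eval_charpoly]
  have h : scalar b r - (A + scalar b r) = -A := by abel
  rw [h]
  have h2 : IsUnit (-A) := hA.neg
  exact ((Matrix.isUnit_iff_isUnit_det _).mp h2).ne_zero

end Pool.Agent.H1.CU
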