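import Pool.Agent.H1.CU.Flat
import Pool.Agent.H1.CU.Meas

/-! Cube project, CUBE91 part B.6: flat sections over Laurent series, existence. -/

namespace Pool.Agent.H1.CU

open Matrix

variable {K : Type*} [Field K]

/-- `lam d/dlam` on Laurent series -/
noncomputable def nabS (x : LaurentSeries K) : LaurentSeries K where
  coeff i := (i : K) * x.coeff i
  isPWO_support' := x.isPWO_support.mono fun i hi => by
    rw [Function.mem_support] at hi
    rw [HahnSeries.mem_support]
    exact fun h => hi (by rw [h, mul_zero])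

/-- Laurent series as an `LF`. -/
noncomputable def LF.univ (K : Type*) [Field K] : LF K (LaurentSeries K) where
  ex := RingHom.id _
  lam := HahnSeries.single 1 1
  ex_lam := rfl
  cst := HahnSeries.C
  ex_cst _ := rfl
  nab := nabS
  ex_nab _ _ := rfl

/-- the sequence of coefficients -/
noncomputable def seqY {n q : Type*} [Fintype n] (S : ℕ → Matrix n q K → Matrix n q K)
    (Gc : ℕ → Matrix n n K) (Y0 : Matrix n q K) : ℕ → Matrix n q K
  | 0 => Y0
  | i + 1 => S (i + 1) (-∑ j : Fin (i + 1), Gc (i + 1 - j) * seqY S Gc Y0 j)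
termination_by i => i
decreasing_by exact j.2

variable {n q : Type*} [Fintype n] [DecidableEq n] [Fintype q] [DecidableEq q]

theorem exists_flat {G : Matrix n n (LaurentSeries K)} (hG : (LF.univ K).Reg G) {B : Matrix q q K}
    (hB : IsNilpotent B) {Y0 : Matrix n q K} (h0 : (LF.univ K).val G * Y0 = Y0 * B)
    (hinv : ∀ m : ℤ, 0 < m → IsUnit (scalar n (m : K) + (LF.univ K).val G)) :
    ∃ Y : Matrix n q (LaurentSeries K), (LF.univ K).Reg Y ∧ (LF.univ K).val Y = Y0 ∧
      (LF.univ K).dM Y + G * Y = Y * B.map (LF.univ K).cst := by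
  set L := LF.univ K with hL
  set Gc : ℕ → Matrix n n K := fun j => L.cf j G with hGc
  have hS : ∀ (i : ℕ) (W : Matrix n q K), ∃ X : Matrix n q K, 0 < i →
      (scalar n ((i : ℤ) : K) + L.val G) * X - X * B = W := by
    intro i W
    rcases Nat.eq_zero_or_pos i with h | h
    · exact ⟨0, fun h' => absurd h' (by omega)⟩
    · obtain ⟨X, hX⟩ := sylv_surj (hinv i (by exact_mod_cast h)) hB W
      exact ⟨X, fun _ => hX⟩
  choose S hSs using hS
  set Yc := seqY S Gc Y0 with hYc
  have hY0 : Yc 0 = Y0 := by rw [hYc, seqY]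
  have hYs : ∀ i : ℕ, (scalar n (((i + 1 : ℕ) : ℤ) : K) + L.val G) * Yc (i + 1) - Yc (i + 1) * B
      = -∑ j : Fin (i + 1), Gc (i + 1 - j) * Yc j := by
    intro i
    have : Yc (i + 1) = S (i + 1) (-∑ j : Fin (i + 1), Gc (i + 1 - j) * Yc j) := by
      rw [hYc, seqY]
    rw [this]
    exact hSs (i + 1) _ (Nat.succ_pos i)
  have hrec : ∀ i : ℕ, (i : K) • Yc i + ∑ jl ∈ Finset.HasAntidiagonal.antidiagonal i, Gc jl.1 * Yc jl.2
      = Yc i * B := by
    intro i
    rcases i with _ | i
    · simp only [Nat.cast_zero, zero_smul, zero_add, Finset.Nat.antidiagonal_zero,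
        Finset.sum_singleton, hY0]
      exact h0
    · have h := hYs i
      rw [Finset.Nat.sum_antidiagonal_eq_sum_range_succ_mk, Finset.sum_range_succ']
      have hsum : ∑ k ∈ Finset.range (i + 1), Gc (k + 1) * Yc (i + 1 - (k + 1))
          = ∑ j : Fin (i + 1), Gc (i + 1 - j) * Yc j := by
        rw [← Finset.sum_range_reflect, Finset.sum_range]
        refine Finset.sum_congr rfl fun j _ => ?_
        have hj := j.2
        congr 2 <;> omega
      rw [hsum]
      have hs : (scalar n (((i + 1 : ℕ) : ℤ) : K) + L.val G) * Yc (i + 1)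
          = ((i + 1 : ℕ) : K) • Yc (i + 1) + Gc 0 * Yc (i + 1) := by
        rw [Matrix.add_mul, LF.scalar_mul_eq, Int.cast_natCast]
        rfl
      rw [hs] at h
      simp only [Nat.sub_zero]
      rw [sub_eq_iff_eq_add] at h
      rw [show (∑ j : Fin (i + 1), Gc (i + 1 - j) * Yc j + Gc 0 * Yc (i + 1))
        = Gc 0 * Yc (i + 1) + ∑ j : Fin (i + 1), Gc (i + 1 - j) * Yc j from add_comm _ _,
        ← add_assoc, h]
      abel
  -- the power series
  set Y : Matrix n q (LaurentSeries K) := Matrix.of fun a b =>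
    HahnSeries.ofPowerSeries ℤ K (PowerSeries.mk fun i => Yc i a b) with hY
  have hregY : L.Reg Y := by
    intro a b
    exact (L.reg_iff _).mpr ⟨_, rfl⟩
  have hcoefY : ∀ (i : ℕ) a b, (Y a b).coeff (i : ℤ) = Yc i a b := by
    intro i a b
    simp only [hY, Matrix.of_apply]
    rw [HahnSeries.ofPowerSeries_apply_coeff, PowerSeries.coeff_mk]
  have hvalY : L.val Y = Y0 := by
    ext a b
    rw [← hY0]
    exact hcoefY 0 a b
  refine ⟨Y, hregY, hvalY, ?_⟩
  have hGps : ∀ a c, ∃ g : PowerSeries K, HahnSeries.ofPowerSeries ℤ K g = G a c := fun a c =>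
    (L.reg_iff _).mp (hG a c)
  choose g hg using hGps
  have hgc : ∀ (i : ℕ) a c, PowerSeries.coeff i (g a c) = Gc i a c := by
    intro i a c
    rw [← HahnSeries.ofPowerSeries_apply_coeff (Γ := ℤ), hg]
    rfl
  ext a b i
  rcases lt_or_ge i 0 with hi | hi
  · have h1 : L.Reg (L.dM Y + G * Y) :=
      Reg_add_aux (fun a b => L.reg_nab (hregY a b)) (hG.mul hregY)
    have h2 : L.Reg (Y * B.map L.cst) := hregY.mul (LF.Reg.map_cst B)
    exact (h1 a b i hi).trans (h2 a b i hi).symm
  · obtain ⟨i, rfl⟩ := Int.eq_ofNat_of_zero_le hi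
    have hGY : ((G * Y) a b).coeff (i : ℤ)
        = (∑ jl ∈ Finset.HasAntidiagonal.antidiagonal i, Gc jl.1 * Yc jl.2) a b := by
      have e1 : (G * Y) a b = HahnSeries.ofPowerSeries ℤ K
          (∑ c, g a c * PowerSeries.mk fun i => Yc i c b) := by
        rw [Matrix.mul_apply, map_sum]
        refine Finset.sum_congr rfl fun c _ => ?_
        rw [map_mul, hg]
        rfl
      rw [e1, HahnSeries.ofPowerSeries_apply_coeff, map_sum, Matrix.sum_apply]
      simp only [PowerSeries.coeff_mul, PowerSeries.coeff_mk, hgc, Matrix.mul_apply]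
      exact Finset.sum_comm
    have hYB : ((Y * B.map L.cst) a b).coeff (i : ℤ) = (Yc i * B) a b := by
      rw [Matrix.mul_apply, Matrix.mul_apply, HahnSeries.coeff_sum]
      refine Finset.sum_congr rfl fun c _ => ?_
      have : (B.map L.cst) c b = HahnSeries.C (B c b) := rfl
      rw [this, mul_comm, HahnSeries.C_mul_eq_smul, HahnSeries.coeff_smul, hcoefY, smul_eq_mul,
        mul_comm]
    have hdY : ((L.dM Y) a b).coeff (i : ℤ) = (i : K) * Yc i a b := by
      have : ((L.dM Y) a b).coeff (i : ℤ) = (((i : ℤ)) : K) * (Y a b).coeff (i : ℤ) := rfl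
      rw [this, hcoefY]
      simp
    have h := congrFun (congrFun (hrec i) a) b
    rw [Matrix.add_apply, HahnSeries.coeff_add, hGY, hYB, hdY, ← h, Matrix.add_apply,
      Matrix.smul_apply, smul_eq_mul]
where
  Reg_add_aux {A B : Matrix n q (LaurentSeries K)} (hA : (LF.univ K).Reg A)
      (hB : (LF.univ K).Reg B) : (LF.univ K).Reg (A + B) := LF.Reg.add hA hB

end Pool.Agent.H1.CU
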