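import Pool.Agent.H1.CU.Flat2

/-! Cube project, CUBE91 part B.6: duality and completeness of the flat sections. -/

namespace Pool.Agent.H1.CU

open Matrix

section Sylvester

variable {K : Type*} [Field K] {n : Type*} [Fintype n] [DecidableEq n]

theorem isUnit_scalar_add {A : Matrix n n K} {r : K} (h : A.charpoly.eval (-r) ≠ 0) :
    IsUnit (scalar n r + A) := by
  rw [Matrix.isUnit_iff_isUnit_det, isUnit_iff_ne_zero]
  intro h0
  apply h
  rw [eval_charpoly]
  have h1 : scalar n (-r) - A = -(scalar n r + A) := by rw [map_neg]; abel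
  rw [h1, det_neg, h0, mul_zero]

theorem charpoly_neg_transpose_eval (A : Matrix n n K) (r : K) (h : A.charpoly.eval (-r) ≠ 0) :
    ((-Aᵀ).charpoly).eval r ≠ 0 := by
  rw [eval_charpoly] at h ⊢
  intro h0
  apply h
  have h1 : scalar n (-r) - A = -((scalar n r - (-Aᵀ))ᵀ) := by
    have h2 : ((scalar n r : Matrix n n K))ᵀ = scalar n r := by
      ext i j
      by_cases hij : i = j
      · subst hij; simp
      · simp [Matrix.diagonal_apply_ne _ hij, Matrix.diagonal_apply_ne _ (Ne.symm hij)]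
    rw [Matrix.transpose_sub, h2, Matrix.transpose_neg, Matrix.transpose_transpose, map_neg]
    abel
  rw [h1, det_neg, det_transpose, h0, mul_zero]

end Sylvester

namespace LF

variable {E F : Type*} [Field E] [Field F] (L : LF E F)

/-- Normal form of a connection matrix: regular, the value at `0` is block diagonal with a
nilpotent block and a block without integer eigenvalues. -/
structure NF {a b : Type*} [Fintype a] [Fintype b] [DecidableEq a] [DecidableEq b]
    (G : Matrix (a ⊕ b) (a ⊕ b) F) (Bu : Matrix a a E) (Bn : Matrix b b E) : Prop where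
  reg : L.Reg G
  val : L.val G = fromBlocks Bu 0 0 Bn
  nil : IsNilpotent Bu
  noint : ∀ i : ℤ, Bn.charpoly.eval (i : E) ≠ 0

variable {L}

section NFsec

variable {a b : Type*} [Fintype a] [Fintype b] [DecidableEq a] [DecidableEq b]
  {G : Matrix (a ⊕ b) (a ⊕ b) F} {Bu : Matrix a a E} {Bn : Matrix b b E}

theorem isUnit_nil_add [CharZero E] {A : Matrix a a E} (hA : IsNilpotent A) {m : ℤ} (hm : m ≠ 0) :
    IsUnit (scalar a (m : E) + A) := by
  apply isUnit_scalar_add
  rw [charpoly_nil hA, Polynomial.eval_pow, Polynomial.eval_X]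
  exact pow_ne_zero _ (neg_ne_zero.mpr (Int.cast_ne_zero.mpr hm))

theorem NF.inv [CharZero E] (h : L.NF G Bu Bn) {m : ℤ} (hm : m ≠ 0) :
    IsUnit (scalar (a ⊕ b) (m : E) + L.val G) := by
  apply isUnit_scalar_add
  rw [h.val, charpoly_fromBlocks_zero₁₂, Polynomial.eval_mul, charpoly_nil h.nil,
    Polynomial.eval_pow, Polynomial.eval_X]
  refine mul_ne_zero (pow_ne_zero _ (neg_ne_zero.mpr (Int.cast_ne_zero.mpr hm))) ?_
  have := h.noint (-m)
  push_cast at this
  exact this

theorem NF.dual (h : L.NF G Bu Bn) : L.NF (-Gᵀ) (-Buᵀ) (-Bnᵀ) where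
  reg := fun i j => L.reg_neg (h.reg j i)
  val := by
    have h1 : L.val (-Gᵀ) = -(L.val G)ᵀ := by
      ext i j
      simp only [LF.val, Matrix.map_apply, Matrix.neg_apply, Matrix.transpose_apply]
      unfold v0
      rw [map_neg, HahnSeries.coeff_neg]
    rw [h1, h.val, fromBlocks_transpose, Matrix.transpose_zero, Matrix.transpose_zero,
      fromBlocks_neg, neg_zero, neg_zero]
  nil := by
    obtain ⟨k, hk⟩ := h.nil
    refine IsNilpotent.neg ⟨k, ?_⟩
    rw [← Matrix.transpose_pow, hk, Matrix.transpose_zero]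
  noint := fun i => by
    apply charpoly_neg_transpose_eval
    have := h.noint (-i)
    push_cast at this
    exact this

theorem isUnit_of_noint (h : L.NF G Bu Bn) : IsUnit Bn := by
  have h0 := h.noint 0
  have := isUnit_scalar_add (A := Bn) (r := 0) (by simpa using h0)
  simpa using this

variable {q : Type*} [Fintype q] [DecidableEq q]

/-- A solution of `(nabla + G) Z = Z B` is regular and the lower block of its value vanishes. -/
theorem NF.regular [CharZero E] (h : L.NF G Bu Bn) {B : Matrix q q E} (hB : IsNilpotent B)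
    {Z : Matrix (a ⊕ b) q F} (hZ : L.dM Z + G * Z = Z * B.map L.cst) :
    L.Reg Z ∧ L.val G * L.val Z = L.val Z * B ∧ ∀ i j, L.val Z (Sum.inr i) j = 0 := by
  have hZ' : L.dM Z + G * Z = Z * B.map L.cst + 0 := by rw [add_zero]; exact hZ
  have hreg : L.Reg Z := L.reg_of_eq h.reg hB hZ' (fun i j => L.reg_zero)
    fun m hm => h.inv (ne_of_lt hm)
  have h0 := L.low_eq h.reg hZ' (m := 0) (fun i hi => by
    ext x y; exact hreg x y i hi) (fun i _ => by ext x y; simp [cf])
  have hcf0 : L.cf 0 (0 : Matrix (a ⊕ b) q F) = 0 := by ext x y; simp [cf]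
  rw [hcf0, add_zero, Int.cast_zero, map_zero, zero_add, L.cf_zero_eq] at h0
  refine ⟨hreg, h0, ?_⟩
  have h1 : Bn * (L.val Z).toRows₂ = (L.val Z).toRows₂ * B := by
    ext i j
    have h2 := congrFun (congrFun h0 (Sum.inr i)) j
    rw [h.val, Matrix.mul_apply, Matrix.mul_apply, Fintype.sum_sum_type] at h2
    simp only [fromBlocks_apply₂₁, fromBlocks_apply₂₂, Matrix.zero_apply, zero_mul,
      Finset.sum_const_zero, zero_add] at h2
    rw [Matrix.mul_apply, Matrix.mul_apply]
    exact h2
  have h3 := sylv_inj (isUnit_of_noint h) hB h1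
  intro i j
  exact congrFun (congrFun h3 i) j

/-- uniqueness -/
theorem NF.unique [CharZero E] (h : L.NF G Bu Bn) {B : Matrix q q E} (hB : IsNilpotent B)
    {Z : Matrix (a ⊕ b) q F} (hZ : L.dM Z + G * Z = Z * B.map L.cst)
    (h0 : ∀ i j, L.val Z (Sum.inl i) j = 0) : Z = 0 := by
  obtain ⟨hreg, _, hlow⟩ := h.regular hB hZ
  refine L.eq_zero_of_eq h.reg hB hZ hreg ?_ fun m hm => h.inv (ne_of_gt hm)
  ext i j
  rcases i with i | i
  · exact h0 i j
  · exact hlow i j

variable (L) in
/-- the matrix of flat sections -/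
structure IsFlat (G : Matrix (a ⊕ b) (a ⊕ b) F) (Bu : Matrix a a E) (Y : Matrix (a ⊕ b) a F) :
    Prop where
  eq : L.dM Y + G * Y = Y * Bu.map L.cst
  val : L.val Y = fromRows 1 0
  reg : L.Reg Y

/-- duality -/
theorem IsFlat.pairing [CharZero E] (h : L.NF G Bu Bn) {Y Y' : Matrix (a ⊕ b) a F}
    (hY : L.IsFlat G Bu Y) (hY' : L.IsFlat (-Gᵀ) (-Buᵀ) Y') : Y'ᵀ * Y = 1 := by
  set X := Y'ᵀ * Y with hX
  have hdT : L.dM Y'ᵀ = (L.dM Y')ᵀ := rfl
  have e1 : L.dM Y = Y * Bu.map L.cst - G * Y := by rw [← hY.eq]; abel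
  have e2 : L.dM Y' = Gᵀ * Y' - Y' * (Buᵀ).map L.cst := by
    have := hY'.eq
    have hm : (-Buᵀ).map L.cst = -((Buᵀ).map L.cst) := by
      ext i j; simp
    rw [hm, Matrix.neg_mul, Matrix.mul_neg] at this
    rw [sub_eq_add_neg, ← this]
    abel
  have hdX : L.dM X = X * Bu.map L.cst - Bu.map L.cst * X := by
    rw [hX, dM_mul, hdT, e1, e2, Matrix.transpose_sub, Matrix.transpose_mul,
      Matrix.transpose_mul, Matrix.transpose_transpose]
    have hm : ((Buᵀ).map L.cst)ᵀ = Bu.map L.cst := rfl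
    rw [hm]
    simp only [Matrix.sub_mul, Matrix.mul_sub, Matrix.mul_assoc]
    abel
  have hXreg : L.Reg X := hY'.reg.transpose.mul hY.reg
  have hvX : L.val X = 1 := by
    rw [hX, val_mul hY'.reg.transpose hY.reg, val_transpose, hY'.val, hY.val,
      transpose_fromRows, fromCols_mul_fromRows]
    simp
  have hWeq : L.dM (X - 1) + Bu.map L.cst * (X - 1) = (X - 1) * Bu.map L.cst := by
    have : L.dM (X - 1) = L.dM X := by
      ext i j
      simp only [dM, Matrix.map_apply, Matrix.sub_apply]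
      rw [sub_eq_add_neg, L.nab_add, L.nab_neg]
      have h1 := congrFun (congrFun (dM_one (L := L) (n := a)) i) j
      simp only [dM, Matrix.map_apply, Matrix.zero_apply] at h1
      rw [h1, neg_zero, add_zero]
    rw [this, hdX]
    simp only [Matrix.sub_mul, Matrix.mul_sub, Matrix.one_mul, Matrix.mul_one]
    abel
  have hinv : ∀ m : ℤ, 0 < m → IsUnit (scalar a (m : E) + L.val (Bu.map L.cst)) := by
    intro m hm
    rw [val_cst]
    exact isUnit_nil_add h.nil (ne_of_gt hm)
  have hz := L.eq_zero_of_eq (Reg.map_cst Bu) h.nil hWeq (hXreg.sub Reg.one)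
    (by rw [val_sub, hvX, val_one, sub_self]) hinv
  exact sub_eq_zero.mp hz

end NFsec

/-! ### The operator `nabla + G` on vectors -/

variable (L)

variable {n : Type*} [Fintype n] [DecidableEq n]

/-- `nabla + G` -/
noncomputable def op (G : Matrix n n F) (v : n → F) : n → F := fun i => L.nab (v i) + (G *ᵥ v) i

theorem op_zero (G : Matrix n n F) : L.op G 0 = 0 := by
  ext i
  simp [op, L.nab_zero]

theorem op_sub (G : Matrix n n F) (v w : n → F) : L.op G (v - w) = L.op G v - L.op G w := by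
  ext i
  simp only [op, Pi.sub_apply, Matrix.mulVec_sub]
  rw [sub_eq_add_neg (v i), L.nab_add, L.nab_neg]
  ring

theorem op_iterate_sub (G : Matrix n n F) (k : ℕ) (v w : n → F) :
    (L.op G)^[k] (v - w) = (L.op G)^[k] v - (L.op G)^[k] w := by
  induction k generalizing v w with
  | zero => rfl
  | succ k ih => rw [Function.iterate_succ_apply, Function.iterate_succ_apply,
      Function.iterate_succ_apply, L.op_sub, ih]

theorem op_iterate_zero_of_le (G : Matrix n n F) {k l : ℕ} (hkl : k ≤ l) {v : n → F}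
    (h : (L.op G)^[k] v = 0) : (L.op G)^[l] v = 0 := by
  obtain ⟨m, rfl⟩ := Nat.exists_eq_add_of_le' hkl
  rw [Function.iterate_add_apply, h]
  clear h hkl
  induction m with
  | zero => rfl
  | succ m ih => rw [Function.iterate_succ_apply, L.op_zero, ih]

/-- the nilpotent shift -/
def shiftM (E : Type*) [Field E] (N : ℕ) : Matrix (Fin N) (Fin N) E :=
  Matrix.of fun i j => if (i : ℕ) = j + 1 then 1 else 0

theorem shiftM_pow (N k : ℕ) (i j : Fin N) :
    (shiftM E N ^ k) i j = if (i : ℕ) = j + k then 1 else 0 := by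
  induction k generalizing i j with
  | zero => simp [Matrix.one_apply, Fin.ext_iff]
  | succ k ih =>
    rw [pow_succ, Matrix.mul_apply]
    have hs : ∀ c : Fin N, shiftM E N c j = if (c : ℕ) = (j : ℕ) + 1 then 1 else 0 := fun c => rfl
    simp only [ih, hs]
    by_cases h : (j : ℕ) + 1 < N
    · rw [Finset.sum_eq_single (⟨(j : ℕ) + 1, h⟩ : Fin N)]
      · have : ((i : ℕ) = (j : ℕ) + 1 + k) ↔ ((i : ℕ) = (j : ℕ) + (k + 1)) := by omega
        simp only [this]
        simp
      · intro c _ hc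
        have : ¬ ((c : ℕ) = (j : ℕ) + 1) := fun h' => hc (Fin.ext h')
        simp [this]
      · intro h'
        exact absurd (Finset.mem_univ _) h'
    · have h1 : ¬ ((i : ℕ) = (j : ℕ) + (k + 1)) := by
        have := i.2
        omega
      rw [if_neg h1]
      refine Finset.sum_eq_zero fun c _ => ?_
      have : ¬ ((c : ℕ) = (j : ℕ) + 1) := by
        have := c.2
        omega
      simp [this]

theorem shiftM_nil (N : ℕ) : IsNilpotent (shiftM E N) := by
  refine ⟨N, ?_⟩
  ext i j
  rw [shiftM_pow, Matrix.zero_apply, if_neg]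
  have := i.2
  omega

/-- the matrix of the iterates -/
noncomputable def itM (G : Matrix n n F) (v : n → F) (N : ℕ) : Matrix n (Fin N) F :=
  Matrix.of fun i j => ((L.op G)^[(j : ℕ)] v) i

theorem itM_eq (G : Matrix n n F) {v : n → F} {N : ℕ} (hv : (L.op G)^[N] v = 0) :
    L.dM (L.itM G v N) + G * L.itM G v N = L.itM G v N * (shiftM E N).map L.cst := by
  ext i j
  have h1 : (L.dM (L.itM G v N) + G * L.itM G v N) i j = ((L.op G)^[(j : ℕ) + 1] v) i := by
    rw [Function.iterate_succ_apply']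
    rfl
  rw [h1, Matrix.mul_apply]
  by_cases h : (j : ℕ) + 1 < N
  · rw [Finset.sum_eq_single (⟨(j : ℕ) + 1, h⟩ : Fin N)]
    · simp [itM, shiftM]
    · intro c _ hc
      have : ¬ ((c : ℕ) = (j : ℕ) + 1) := fun h' => hc (Fin.ext h')
      simp [shiftM, this]
    · intro h'
      exact absurd (Finset.mem_univ _) h'
  · have h2 : (j : ℕ) + 1 = N := by
      have := j.2
      omega
    rw [h2, hv, Finset.sum_eq_zero]
    · rfl
    · intro c _
      have : ¬ ((c : ℕ) = (j : ℕ) + 1) := by
        have := c.2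
        omega
      simp [shiftM, this]

variable {L}

theorem op_flat {a : Type*} [Fintype a] [DecidableEq a] {G : Matrix n n F} {Bu : Matrix a a E}
    {Y : Matrix n a F} (hY : L.dM Y + G * Y = Y * Bu.map L.cst) (x : a → E) (k : ℕ) :
    (L.op G)^[k] (Y *ᵥ (L.cst ∘ x)) = Y *ᵥ (L.cst ∘ (Bu ^ k *ᵥ x)) := by
  have h1 : ∀ x : a → E, L.op G (Y *ᵥ (L.cst ∘ x)) = Y *ᵥ (L.cst ∘ (Bu *ᵥ x)) := by
    intro x
    have e1 : L.op G (Y *ᵥ (L.cst ∘ x)) = (L.dM Y + G * Y) *ᵥ (L.cst ∘ x) := by
      ext i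
      rw [Matrix.add_mulVec, ← Matrix.mulVec_mulVec]
      simp only [op, Pi.add_apply]
      congr 1
      simp only [Matrix.mulVec, dotProduct, dM, Matrix.map_apply, Function.comp]
      rw [L.nab_sum]
      refine Finset.sum_congr rfl fun c _ => ?_
      rw [L.nab_mul, L.nab_cst, mul_zero, add_zero]
    rw [e1, hY, ← Matrix.mulVec_mulVec]
    congr 1
    ext i
    simp [Matrix.mulVec, dotProduct, map_sum]
  induction k generalizing x with
  | zero => simp
  | succ k ih =>
    rw [Function.iterate_succ_apply, h1, ih, Matrix.mulVec_mulVec, ← pow_succ]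

/-- **Completeness**: every vector killed by a power of `nabla + G` is a constant combination of
the columns of the matrix of flat sections. -/
theorem IsFlat.complete [CharZero E] {a b : Type*} [Fintype a] [Fintype b] [DecidableEq a]
    [DecidableEq b] {G : Matrix (a ⊕ b) (a ⊕ b) F} {Bu : Matrix a a E} {Bn : Matrix b b E}
    (h : L.NF G Bu Bn) {Y : Matrix (a ⊕ b) a F} (hY : L.IsFlat G Bu Y) {v : a ⊕ b → F} {N : ℕ}
    (hv : (L.op G)^[N] v = 0) : ∃ x : a → E, v = Y *ᵥ (L.cst ∘ x) := by
  obtain ⟨k, hk⟩ := h.nil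
  set M := N + k + 1 with hM
  have hvM : (L.op G)^[M] v = 0 := L.op_iterate_zero_of_le G (by omega) hv
  set x : a → E := fun i => L.v0 (v (Sum.inl i)) with hx
  refine ⟨x, ?_⟩
  set w := v - Y *ᵥ (L.cst ∘ x) with hw
  have hwM : (L.op G)^[M] w = 0 := by
    rw [hw, L.op_iterate_sub, hvM, op_flat hY.eq x M]
    have : Bu ^ M = 0 := by
      rw [hM, show N + k + 1 = k + (N + 1) by omega, pow_add, hk, zero_mul]
    rw [this, Matrix.zero_mulVec]
    have : (L.cst ∘ (0 : a → E)) = 0 := by ext i; simp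
    rw [this, Matrix.mulVec_zero, sub_zero]
  -- regularity of `v` and vanishing of the lower part of its value
  have hregv := h.regular (shiftM_nil (E := E) M) (L.itM_eq G hvM)
  have hMpos : 0 < M := by omega
  have hv_reg : ∀ i, L.reg (v i) := fun i => hregv.1 i ⟨0, hMpos⟩
  have hv_low : ∀ i, L.v0 (v (Sum.inr i)) = 0 := fun i => hregv.2.2 i ⟨0, hMpos⟩
  have hYx_reg : ∀ i, L.reg ((Y *ᵥ (L.cst ∘ x)) i) := fun i =>
    L.reg_sum _ fun c _ => L.reg_mul (hY.reg i c) (L.reg_cst _)
  have hYx_val : ∀ i, L.v0 ((Y *ᵥ (L.cst ∘ x)) i) = (fromRows (1 : Matrix a a E) 0 *ᵥ x) i := by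
    intro i
    simp only [Matrix.mulVec, dotProduct, Function.comp]
    rw [L.v0_sum]
    refine Finset.sum_congr rfl fun c _ => ?_
    rw [L.v0_mul (hY.reg i c) (L.reg_cst _), L.v0_cst, ← hY.val]
    rfl
  have hw_val : ∀ i, L.v0 (w i) = 0 := by
    intro i
    have : w i = v i - (Y *ᵥ (L.cst ∘ x)) i := rfl
    rw [this, L.v0_sub, hYx_val]
    rcases i with i | i
    · simp [hx]
    · rw [hv_low i]
      simp
  have hw_reg : ∀ i, L.reg (w i) := fun i => L.reg_sub (hv_reg i) (hYx_reg i)
  -- all iterates of `w` have value `0`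
  have hit : ∀ j : ℕ, (∀ i, L.reg (((L.op G)^[j] w) i)) ∧ ∀ i, L.v0 (((L.op G)^[j] w) i) = 0 := by
    intro j
    induction j with
    | zero => exact ⟨hw_reg, hw_val⟩
    | succ j ih =>
      rw [Function.iterate_succ_apply']
      refine ⟨fun i => L.reg_add (L.reg_nab (ih.1 i)) (L.reg_sum _ fun c _ =>
        L.reg_mul (h.reg i c) (ih.1 c)), fun i => ?_⟩
      simp only [op, Matrix.mulVec, dotProduct]
      rw [L.v0_add, L.v0_nab, zero_add, L.v0_sum]
      refine Finset.sum_eq_zero fun c _ => ?_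
      rw [L.v0_mul (h.reg i c) (ih.1 c), ih.2 c, mul_zero]
  have hz := h.unique (shiftM_nil (E := E) M) (L.itM_eq G hwM) fun i j => (hit j).2 (Sum.inl i)
  have hw0 : w = 0 := by
    ext i
    exact congrFun (congrFun hz i) ⟨0, hMpos⟩
  exact sub_eq_zero.mp hw0

end LF

end Pool.Agent.H1.CU
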