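import Pool.Agent.H1.CU.Flat3

/-! Cube project, CUBE91 part B.6 (d): the other derivations. -/

namespace Pool.Agent.H1.CU

open Matrix

namespace LF

variable {E F : Type*} [Field E] [Field F]

/-- A derivation of `F` which acts coefficientwise, by a derivation of `E`. -/
structure DD (L : LF E F) where
  DE : Derivation ℤ E E
  DF : F → F
  ex_DF : ∀ x (i : ℤ), (L.ex (DF x)).coeff i = DE ((L.ex x).coeff i)

namespace DD

variable {L : LF E F} (D : L.DD)

theorem add (x y : F) : D.DF (x + y) = D.DF x + D.DF y := by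
  apply L.ex_inj
  ext i
  rw [D.ex_DF]
  simp only [map_add, HahnSeries.coeff_add, D.ex_DF]

theorem mul (x y : F) : D.DF (x * y) = D.DF x * y + x * D.DF y := by
  apply L.ex_inj
  ext i
  rw [D.ex_DF]
  have hs : ∀ z, (L.ex (D.DF z)).support ⊆ (L.ex z).support := by
    intro z j hj
    rw [HahnSeries.mem_support] at hj ⊢
    intro h
    exact hj (by rw [D.ex_DF, h, map_zero])
  rw [map_add, map_mul, map_mul, map_mul, HahnSeries.coeff_add, HahnSeries.coeff_mul,
    HahnSeries.coeff_mul_left' (L.ex x).isPWO_support (hs x),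
    HahnSeries.coeff_mul_right' (L.ex y).isPWO_support (hs y), map_sum,
    ← Finset.sum_add_distrib]
  refine Finset.sum_congr rfl fun ij hij => ?_
  rw [D.ex_DF, D.ex_DF, Derivation.leibniz, smul_eq_mul, smul_eq_mul]
  ring

theorem zero : D.DF 0 = 0 := by
  apply L.ex_inj
  ext i
  rw [D.ex_DF]
  simp

theorem neg (x : F) : D.DF (-x) = -D.DF x := by
  have h := D.add x (-x)
  rw [add_neg_cancel, D.zero] at h
  linear_combination -h

theorem sum {ι : Type*} (s : Finset ι) (f : ι → F) :
    D.DF (∑ i ∈ s, f i) = ∑ i ∈ s, D.DF (f i) := by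
  classical
  induction s using Finset.induction_on with
  | empty => simp [D.zero]
  | insert a s ha ih => rw [Finset.sum_insert ha, Finset.sum_insert ha, D.add, ih]

theorem cst (a : E) : D.DF (L.cst a) = L.cst (D.DE a) := by
  apply L.ex_inj
  ext i
  rw [D.ex_DF, L.ex_cst, L.ex_cst]
  by_cases h : i = 0
  · subst h; simp
  · rw [HahnSeries.C_apply, HahnSeries.C_apply, HahnSeries.coeff_single_of_ne h,
      HahnSeries.coeff_single_of_ne h, map_zero]

theorem nab_comm (x : F) : D.DF (L.nab x) = L.nab (D.DF x) := by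
  apply L.ex_inj
  ext i
  rw [D.ex_DF, L.ex_nab, L.ex_nab, D.ex_DF, Derivation.leibniz]
  simp

theorem reg {x : F} (hx : L.reg x) : L.reg (D.DF x) := by
  intro i hi
  rw [D.ex_DF, hx i hi, map_zero]

theorem v0 (x : F) : L.v0 (D.DF x) = D.DE (L.v0 x) := by
  unfold LF.v0
  rw [D.ex_DF]

/-- entrywise derivation -/
def M {n m : Type*} (Z : Matrix n m F) : Matrix n m F := Z.map D.DF

theorem M_mul {n m k : Type*} [Fintype m] (A : Matrix n m F) (B : Matrix m k F) :
    D.M (A * B) = D.M A * B + A * D.M B := by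
  ext i j
  simp only [M, Matrix.map_apply, Matrix.mul_apply, Matrix.add_apply]
  rw [D.sum, ← Finset.sum_add_distrib]
  exact Finset.sum_congr rfl fun l _ => D.mul _ _

theorem M_add {n m : Type*} (A B : Matrix n m F) : D.M (A + B) = D.M A + D.M B := by
  ext i j
  exact D.add _ _

theorem M_sub {n m : Type*} (A B : Matrix n m F) : D.M (A - B) = D.M A - D.M B := by
  ext i j
  simp only [M, Matrix.map_apply, Matrix.sub_apply]
  rw [sub_eq_add_neg, D.add, D.neg, ← sub_eq_add_neg]

theorem M_neg {n m : Type*} (A : Matrix n m F) : D.M (-A) = -D.M A := by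
  ext i j
  exact D.neg _

theorem M_cst {n m : Type*} (A : Matrix n m E) : D.M (A.map L.cst) = (A.map D.DE).map L.cst := by
  ext i j
  exact D.cst _

theorem M_dM {n m : Type*} (A : Matrix n m F) : D.M (L.dM A) = L.dM (D.M A) := by
  ext i j
  exact D.nab_comm _

end DD

variable {L : LF E F} {a b : Type*} [Fintype a] [Fintype b] [DecidableEq a] [DecidableEq b]
  {G : Matrix (a ⊕ b) (a ⊕ b) F} {Bu : Matrix a a E} {Bn : Matrix b b E}

/-- flatness: `[nabla + G, D + GD] = 0` -/
def Comm (L : LF E F) (D : L.DD) {n : Type*} [Fintype n] (G GD : Matrix n n F) : Prop :=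
  L.dM GD + G * GD = D.M G + GD * G

theorem Comm.dual {D : L.DD} {n : Type*} [Fintype n] {G GD : Matrix n n F} (h : Comm L D G GD) :
    Comm L D (-Gᵀ) (-GDᵀ) := by
  unfold Comm at h ⊢
  have h1 := congrArg Matrix.transpose h
  rw [Matrix.transpose_add, Matrix.transpose_add, Matrix.transpose_mul, Matrix.transpose_mul] at h1
  have e1 : L.dM (-GDᵀ) = -(L.dM GD)ᵀ := by
    ext i j
    exact L.nab_neg _
  have e2 : D.M (-Gᵀ) = -(D.M G)ᵀ := by
    ext i j
    exact D.neg _
  rw [e1, e2, neg_mul_neg, neg_mul_neg]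
  have h2 : (L.dM GD)ᵀ = (D.M G)ᵀ + Gᵀ * GDᵀ - GDᵀ * Gᵀ := by rw [← h1]; abel
  rw [h2]
  abel

/-- (d): `(D + GD) Y = Y H`, `H` the upper block of the value. -/
theorem IsFlat.der [CharZero E] (h : L.NF G Bu Bn) {Y : Matrix (a ⊕ b) a F}
    (hY : L.IsFlat G Bu Y) (D : L.DD) {GD : Matrix (a ⊕ b) (a ⊕ b) F} (hD : Comm L D G GD) :
    ∃ H : Matrix a a E, D.M Y + GD * Y = Y * H.map L.cst ∧ Bu * H = H * Bu + Bu.map D.DE := by
  set Z := D.M Y + GD * Y with hZ
  set R := Y * (Bu.map D.DE).map L.cst with hR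
  have e0 : L.dM Y = Y * Bu.map L.cst - G * Y := by rw [← hY.eq]; abel
  have hZeq : L.dM Z + G * Z = Z * Bu.map L.cst + R := by
    have e1 : L.dM (D.M Y) = D.M Y * Bu.map L.cst + Y * (Bu.map D.DE).map L.cst
        - (D.M G * Y + G * D.M Y) := by
      rw [← D.M_dM, e0, D.M_sub, D.M_mul, D.M_mul, D.M_cst]
    unfold Comm at hD
    have e2 : L.dM GD = D.M G + GD * G - G * GD := by rw [← hD]; abel
    rw [hZ, dM_add, e1, dM_mul, e0, e2, hR]
    simp only [Matrix.sub_mul, Matrix.add_mul, Matrix.mul_add, Matrix.mul_sub, Matrix.mul_assoc]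
    abel
  have hRreg : L.Reg R := hY.reg.mul (Reg.map_cst _)
  have hreg : L.Reg Z := L.reg_of_eq h.reg h.nil hZeq hRreg fun m hm => h.inv (ne_of_lt hm)
  have h0 := L.low_eq h.reg hZeq (m := 0) (fun i hi => by ext x y; exact hreg x y i hi)
    (fun i hi => by ext x y; exact hRreg x y i hi)
  rw [Int.cast_zero, map_zero, zero_add, L.cf_zero_eq, L.cf_zero_eq, hR,
    val_mul hY.reg (Reg.map_cst _), val_cst, hY.val] at h0
  set Zu : Matrix a a E := (L.val Z).toRows₁ with hZu
  set Zn : Matrix b a E := (L.val Z).toRows₂ with hZn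
  have hsplit : L.val Z = fromRows Zu Zn := by rw [hZu, hZn, fromRows_toRows]
  rw [hsplit, h.val] at h0
  have hup : Bu * Zu = Zu * Bu + Bu.map D.DE := by
    ext i j
    have h2 := congrFun (congrFun h0 (Sum.inl i)) j
    simp only [Matrix.add_apply, Matrix.mul_apply, Fintype.sum_sum_type, fromBlocks_apply₁₁,
      fromBlocks_apply₁₂, fromRows_apply_inl, fromRows_apply_inr, Matrix.zero_apply, zero_mul,
      Finset.sum_const_zero, add_zero] at h2
    rw [Matrix.add_apply, Matrix.mul_apply, Matrix.mul_apply, h2]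
    congr 1
    rw [Finset.sum_eq_single i]
    · simp
    · intro c _ hc
      rw [Matrix.one_apply_ne (Ne.symm hc), zero_mul]
    · intro h'
      exact absurd (Finset.mem_univ _) h'
  have hlo : Bn * Zn = Zn * Bu := by
    ext i j
    have h2 := congrFun (congrFun h0 (Sum.inr i)) j
    simp only [Matrix.add_apply, Matrix.mul_apply, Fintype.sum_sum_type, fromBlocks_apply₂₁,
      fromBlocks_apply₂₂, fromRows_apply_inl, fromRows_apply_inr, Matrix.zero_apply, zero_mul,
      Finset.sum_const_zero, add_zero, zero_add] at h2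
    rw [Matrix.mul_apply, Matrix.mul_apply, h2]
  have hZn0 : Zn = 0 := sylv_inj (isUnit_of_noint h) h.nil hlo
  refine ⟨Zu, ?_, hup⟩
  set W := Z - Y * Zu.map L.cst with hW
  have hWeq : L.dM W + G * W = W * Bu.map L.cst := by
    have hup' := congrArg (fun A : Matrix a a E => A.map L.cst) hup
    simp only [Matrix.map_mul, Matrix.map_add] at hup'
    have e4 : L.dM W = L.dM Z - L.dM (Y * Zu.map L.cst) := by
      rw [hW]
      ext i j
      simp only [dM, Matrix.map_apply, Matrix.sub_apply]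
      rw [sub_eq_add_neg, L.nab_add, L.nab_neg, ← sub_eq_add_neg]
    have e5 : L.dM Z = Z * Bu.map L.cst + R - G * Z := by rw [← hZeq]; abel
    have e6 : (Bu.map D.DE).map L.cst = Bu.map L.cst * Zu.map L.cst - Zu.map L.cst * Bu.map L.cst := by
      have : Bu.map L.cst * Zu.map L.cst
          = Zu.map L.cst * Bu.map L.cst + (Bu.map D.DE).map L.cst := by
        have h7 := congrArg (fun A : Matrix a a E => A.map L.cst) hup
        simp only [Matrix.map_mul] at h7
        rw [h7]
        ext i j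
        simp [Matrix.mul_apply]
      rw [this]; abel
    rw [e4, e5, dM_mul, dM_cst, Matrix.mul_zero, add_zero, e0, hR, e6, hW]
    simp only [Matrix.sub_mul, Matrix.add_mul, Matrix.mul_add, Matrix.mul_sub, Matrix.mul_assoc]
    abel
  have hz := h.unique h.nil hWeq fun i j => by
    rw [hW, val_sub, hsplit, val_mul hY.reg (Reg.map_cst _), val_cst, hY.val]
    simp only [Matrix.sub_apply, fromRows_apply_inl, Matrix.mul_apply]
    rw [Finset.sum_eq_single i]
    · simp
    · intro c _ hc
      rw [Matrix.one_apply_ne (Ne.symm hc), zero_mul]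
    · intro h'
      exact absurd (Finset.mem_univ _) h'
  rw [hW] at hz
  exact sub_eq_zero.mp hz

/-- (d) for the dual connection, with the dual matrix. -/
theorem IsFlat.der_dual [CharZero E] (h : L.NF G Bu Bn) {Y Y' : Matrix (a ⊕ b) a F}
    (hY : L.IsFlat G Bu Y) (hY' : L.IsFlat (-Gᵀ) (-Buᵀ) Y') (D : L.DD)
    {GD : Matrix (a ⊕ b) (a ⊕ b) F} (hD : Comm L D G GD) {H : Matrix a a E}
    (hH : D.M Y + GD * Y = Y * H.map L.cst) :
    D.M Y' - GDᵀ * Y' = Y' * (-Hᵀ).map L.cst := by
  obtain ⟨W, hW, _⟩ := hY'.der h.dual D hD.dual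
  have hpair := IsFlat.pairing h hY hY'
  have h1 : D.M (Y'ᵀ * Y) = 0 := by
    rw [hpair]
    have : (1 : Matrix a a F) = (1 : Matrix a a E).map L.cst := by simp
    rw [this, D.M_cst]
    ext i j
    by_cases hij : i = j
    · subst hij; simp
    · simp [Matrix.one_apply_ne hij]
  rw [D.M_mul] at h1
  have hT : D.M Y'ᵀ = (D.M Y')ᵀ := rfl
  have e1 : D.M Y = Y * H.map L.cst - GD * Y := by rw [← hH]; abel
  have e2 : D.M Y' = Y' * W.map L.cst + GDᵀ * Y' := by
    rw [Matrix.neg_mul] at hW
    rw [← hW]; abel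
  rw [hT, e1, e2, Matrix.transpose_add, Matrix.transpose_mul, Matrix.transpose_mul,
    Matrix.transpose_transpose, Matrix.add_mul, Matrix.mul_assoc, hpair, Matrix.mul_one,
    Matrix.mul_sub, ← Matrix.mul_assoc Y'ᵀ Y, hpair, Matrix.one_mul, Matrix.mul_assoc Y'ᵀ GD] at h1
  have h2 : (W.map L.cst)ᵀ = -(H.map L.cst) := by
    have : (W.map L.cst)ᵀ + H.map L.cst = 0 := by rw [← h1]; abel
    exact eq_neg_of_add_eq_zero_left this
  have h3 : W.map L.cst = (-Hᵀ).map L.cst := by
    have := congrArg Matrix.transpose h2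
    rw [Matrix.transpose_transpose] at this
    rw [this]
    ext i j
    simp
  rw [← h3, e2]
  abel

end LF

end Pool.Agent.H1.CU
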