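import Pool.Agent.H1.CU.Flat4

/-! Cube project: morphisms of `LF`, gauges and duality. -/

namespace Pool.Agent.H1.CU

open Matrix

namespace LF

variable {E F E' F' : Type*} [Field E] [Field F] [Field E'] [Field F']

section gauge

variable {L : LF E F} {n m q : Type*} [Fintype n] [Fintype m] [DecidableEq n] [DecidableEq m]
  {G : Matrix n n F} {G' : Matrix m m F} {H : Matrix n m F} {H' : Matrix m n F}

theorem Gauge.HG (h : L.Gauge G G' H H') : H * G' = G * H + L.dM H := by
  rw [h.eq, Matrix.mul_add, ← Matrix.mul_assoc, ← Matrix.mul_assoc, ← Matrix.mul_assoc, h.mul_inv,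
    Matrix.one_mul, Matrix.one_mul]

theorem Gauge.conj (h : L.Gauge G G' H H') (Y : Matrix m q F) :
    L.dM (H * Y) + G * (H * Y) = H * (L.dM Y + G' * Y) := by
  rw [dM_mul, Matrix.mul_add, ← Matrix.mul_assoc H G', h.HG, Matrix.add_mul, Matrix.mul_assoc G]
  abel

theorem Gauge.symm (h : L.Gauge G G' H H') : L.Gauge G' G H' H where
  mul_inv := h.inv_mul
  inv_mul := h.mul_inv
  eq := by
    have h1 : L.dM (H * H') = 0 := by rw [h.mul_inv, dM_one]
    rw [dM_mul] at h1
    have h2 : H * L.dM H' = -(L.dM H * H') := eq_neg_of_add_eq_zero_right h1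
    rw [h.HG, Matrix.add_mul, Matrix.mul_assoc, h.mul_inv, Matrix.mul_one, h2]
    abel

theorem Gauge.dual (h : L.Gauge G G' H H') : L.Gauge (-Gᵀ) (-G'ᵀ) H'ᵀ Hᵀ where
  mul_inv := by rw [← Matrix.transpose_mul, h.mul_inv, Matrix.transpose_one]
  inv_mul := by rw [← Matrix.transpose_mul, h.inv_mul, Matrix.transpose_one]
  eq := by
    have h1 : L.dM (H' * H) = 0 := by rw [h.inv_mul, dM_one]
    rw [dM_mul] at h1
    have h2 : L.dM H' * H = -(H' * L.dM H) := eq_neg_of_add_eq_zero_left h1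
    have h3 : Hᵀ * L.dM H'ᵀ = (L.dM H' * H)ᵀ := by rw [Matrix.transpose_mul]; rfl
    rw [h3, h2, h.eq, Matrix.mul_neg, Matrix.neg_mul, Matrix.transpose_add, Matrix.transpose_mul,
      Matrix.transpose_mul, Matrix.transpose_neg, Matrix.mul_assoc]
    abel

omit [Fintype n] [DecidableEq n] [DecidableEq m] in
theorem nab_mulVec (H : Matrix n m F) (v : m → F) (i : n) :
    L.nab ((H *ᵥ v) i) = (L.dM H *ᵥ v) i + (H *ᵥ fun j => L.nab (v j)) i := by
  simp only [Matrix.mulVec, dotProduct, dM, Matrix.map_apply]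
  rw [L.nab_sum, ← Finset.sum_add_distrib]
  exact Finset.sum_congr rfl fun l _ => L.nab_mul _ _

theorem Gauge.op (h : L.Gauge G G' H H') (v : m → F) :
    L.op G (H *ᵥ v) = H *ᵥ L.op G' v := by
  have e1 : L.op G' v = (fun j => L.nab (v j)) + G' *ᵥ v := rfl
  ext i
  rw [e1, Matrix.mulVec_add, Matrix.mulVec_mulVec, h.HG, Matrix.add_mulVec]
  simp only [LF.op, Pi.add_apply]
  rw [nab_mulVec, Matrix.mulVec_mulVec]
  ring

theorem Gauge.op_iterate (h : L.Gauge G G' H H') (k : ℕ) (v : m → F) :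
    (L.op G)^[k] (H *ᵥ v) = H *ᵥ (L.op G')^[k] v := by
  induction k generalizing v with
  | zero => rfl
  | succ k ih => rw [Function.iterate_succ_apply, Function.iterate_succ_apply, h.op, ih]

end gauge

/-- A morphism of `LF`. -/
structure Mor (L : LF E F) (L' : LF E' F') where
  κ : E →+* E'
  σ : F →+* F'
  comp : ∀ x (i : ℤ), (L'.ex (σ x)).coeff i = κ ((L.ex x).coeff i)

namespace Mor

variable {L : LF E F} {L' : LF E' F'} (f : Mor L L')

theorem nab (x : F) : f.σ (L.nab x) = L'.nab (f.σ x) := by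
  apply L'.ex_inj
  ext i
  rw [f.comp, L.ex_nab, L'.ex_nab, f.comp, map_mul, map_intCast]

theorem cst (a : E) : f.σ (L.cst a) = L'.cst (f.κ a) := by
  apply L'.ex_inj
  ext i
  rw [f.comp, L.ex_cst, L'.ex_cst]
  by_cases h : i = 0
  · subst h; simp
  · rw [HahnSeries.C_apply, HahnSeries.C_apply, HahnSeries.coeff_single_of_ne h,
      HahnSeries.coeff_single_of_ne h, map_zero]

theorem reg {x : F} (hx : L.reg x) : L'.reg (f.σ x) := by
  intro i hi
  rw [f.comp, hx i hi, map_zero]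

theorem v0 (x : F) : L'.v0 (f.σ x) = f.κ (L.v0 x) := by
  unfold LF.v0
  rw [f.comp]

variable {n m q : Type*}

theorem Reg {G : Matrix n m F} (h : L.Reg G) : L'.Reg (G.map f.σ) := fun i j => f.reg (h i j)

theorem val (G : Matrix n m F) : L'.val (G.map f.σ) = (L.val G).map f.κ := by
  ext i j
  exact f.v0 _

theorem dM (G : Matrix n m F) : L'.dM (G.map f.σ) = (L.dM G).map f.σ := by
  ext i j
  exact (f.nab _).symm

theorem cstM (B : Matrix n m E) : (B.map L.cst).map f.σ = (B.map f.κ).map L'.cst := by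
  ext i j
  exact f.cst _

theorem gauge [Fintype n] [Fintype m] [DecidableEq n] [DecidableEq m]
    {G : Matrix n n F} {G' : Matrix m m F} {H : Matrix n m F} {H' : Matrix m n F}
    (h : L.Gauge G G' H H') :
    L'.Gauge (G.map f.σ) (G'.map f.σ) (H.map f.σ) (H'.map f.σ) where
  mul_inv := by rw [← Matrix.map_mul, h.mul_inv]; simp
  inv_mul := by rw [← Matrix.map_mul, h.inv_mul]; simp
  eq := by
    rw [f.dM, h.eq, Matrix.map_add _ (map_add f.σ), Matrix.map_mul, Matrix.map_mul,
      Matrix.map_mul]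

theorem isNilpotent_map [Fintype n] [DecidableEq n] {B : Matrix n n E} (h : IsNilpotent B) :
    IsNilpotent (B.map f.κ) := by
  obtain ⟨k, hk⟩ := h
  refine ⟨k, ?_⟩
  have h1 : (f.κ.mapMatrix B) ^ k = f.κ.mapMatrix (B ^ k) := (map_pow _ _ _).symm
  have h2 : f.κ.mapMatrix B = B.map f.κ := rfl
  rw [← h2, h1, hk, map_zero]

theorem charpoly_eval [Fintype n] [DecidableEq n] {B : Matrix n n E} (i : ℤ)
    (h : B.charpoly.eval (i : E) ≠ 0) : (B.map f.κ).charpoly.eval (i : E') ≠ 0 := by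
  have h1 : (B.map f.κ).charpoly = B.charpoly.map f.κ := Matrix.charpoly_map B f.κ
  rw [h1, ← map_intCast f.κ, Polynomial.eval_map_apply]
  exact fun h0 => h (f.κ.injective (by rw [h0, map_zero]))

theorem nf {a b : Type*} [Fintype a] [Fintype b] [DecidableEq a] [DecidableEq b]
    {G : Matrix (a ⊕ b) (a ⊕ b) F} {Bu : Matrix a a E} {Bn : Matrix b b E} (h : L.NF G Bu Bn) :
    L'.NF (G.map f.σ) (Bu.map f.κ) (Bn.map f.κ) where
  reg := f.Reg h.reg
  val := by
    rw [f.val, h.val, Matrix.fromBlocks_map]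
    congr 1 <;> (ext i j; simp)
  nil := f.isNilpotent_map h.nil
  noint := fun i => f.charpoly_eval i (h.noint i)

theorem isFlat {a b : Type*} [Fintype a] [Fintype b] [DecidableEq a] [DecidableEq b]
    {G : Matrix (a ⊕ b) (a ⊕ b) F} {Bu : Matrix a a E} {Y : Matrix (a ⊕ b) a F}
    (h : L.IsFlat G Bu Y) : L'.IsFlat (G.map f.σ) (Bu.map f.κ) (Y.map f.σ) where
  eq := by
    rw [f.dM, ← f.cstM, ← Matrix.map_mul, ← Matrix.map_mul, ← h.eq,
      Matrix.map_add _ (map_add f.σ)]
  val := by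
    rw [f.val, h.val]
    ext i j
    rcases i with i | i
    · by_cases hij : i = j
      · subst hij; simp
      · simp [Matrix.one_apply_ne hij]
    · simp
  reg := f.Reg h.reg

end Mor

end LF

end Pool.Agent.H1.CU
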