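import Pool.Agent.H1.CU.LF
import Pool.Agent.H1.CU.Fit
import Pool.Agent.H1.CU.Meas

/-! Cube project, CUBE91 part B.5: shearing. -/

namespace Pool.Agent.H1.CU

open Matrix Polynomial

variable {E F : Type*} [Field E] [Field F]

namespace LF

variable (L : LF E F)

/-- the conclusion of the shearing lemma -/
def Sheared {n : Type*} [Fintype n] [DecidableEq n] (G : Matrix n n F) : Prop :=
  ∃ (a b : ℕ) (G' : Matrix (Fin a ⊕ Fin b) (Fin a ⊕ Fin b) F) (H : Matrix n (Fin a ⊕ Fin b) F)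
    (H' : Matrix (Fin a ⊕ Fin b) n F) (Bu : Matrix (Fin a) (Fin a) E) (Bn : Matrix (Fin b) (Fin b) E),
    L.Gauge G G' H H' ∧ L.Reg G' ∧ L.val G' = fromBlocks Bu 0 0 Bn ∧ IsNilpotent Bu ∧
      ∀ i : ℤ, Bn.charpoly.eval (i : E) ≠ 0

theorem shear_base {n : Type*} [Fintype n] [DecidableEq n] (G : Matrix n n F) (hG : L.Reg G)
    (h : ∀ k : ℤ, k ≠ 0 → (L.val G).charpoly.eval (k : E) ≠ 0) : L.Sheared G := by
  obtain ⟨a, b, P, Q, A1, A2, hPQ, hQP, hbl, hA1, hA2⟩ := fitting (L.val G)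
  have hg := Gauge.const (L := L) G hPQ hQP
  have hval : L.val (Q.map L.cst * G * P.map L.cst) = fromBlocks A1 0 0 A2 := by
    rw [val_mul ((Reg.map_cst Q).mul hG) (Reg.map_cst P), val_mul (Reg.map_cst Q) hG, val_cst,
      val_cst, hbl]
  refine ⟨a, b, _, _, _, A1, A2, hg, ((Reg.map_cst Q).mul hG).mul (Reg.map_cst P), hval, hA1, ?_⟩
  intro i
  have hch : (L.val G).charpoly = A1.charpoly * A2.charpoly := by
    rw [← charpoly_conj hPQ hQP, hbl, charpoly_fromBlocks_zero₁₂]
  by_cases hi : i = 0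
  · subst hi
    have := charpoly_unit_add_eval hA2 0
    simpa using this
  · intro h0
    exact h i hi (by rw [hch, eval_mul, h0, mul_zero])

omit [Field F] in
theorem scalar_sum {a b : Type*} [Fintype a] [Fintype b] [DecidableEq a] [DecidableEq b] (r : E) :
    scalar (a ⊕ b) r = Matrix.fromBlocks (scalar a r) 0 0 (scalar b r) := by
  ext i j
  rcases i with i | i <;> rcases j with j | j <;> simp [Matrix.diagonal_apply]

omit [Field F] in
theorem conj_sub_scalar {n m : Type*} [Fintype n] [Fintype m] [DecidableEq n] [DecidableEq m]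
    {P : Matrix n m E} {Q : Matrix m n E} (hQP : Q * P = 1) (M : Matrix n n E) (r : E) :
    Q * (M - scalar n r) * P = Q * M * P - scalar m r := by
  rw [Matrix.mul_sub, Matrix.sub_mul]
  congr 1
  have e1 : scalar n r = r • (1 : Matrix n n E) := by
    ext i j
    by_cases h : i = j
    · subst h; simp
    · simp [Matrix.diagonal_apply_ne _ h, Matrix.one_apply_ne h]
  have e2 : scalar m r = r • (1 : Matrix m m E) := by
    ext i j
    by_cases h : i = j
    · subst h; simp
    · simp [Matrix.diagonal_apply_ne _ h, Matrix.one_apply_ne h]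
  rw [e1, e2, Matrix.mul_smul, Matrix.mul_one, Matrix.smul_mul, hQP]

theorem blocks_conj {a b : Type*} [Fintype a] [Fintype b] [DecidableEq a] [DecidableEq b]
    (X : Matrix a a F) (Y : Matrix a b F) (Z : Matrix b a F) (W : Matrix b b F) (c c' : F) :
    (fromBlocks (c' • (1 : Matrix a a F)) 0 0 (1 : Matrix b b F)) * fromBlocks X Y Z W *
      fromBlocks (c • (1 : Matrix a a F)) 0 0 (1 : Matrix b b F)
      = fromBlocks ((c' * c) • X) (c' • Y) (c • Z) W := by
  rw [fromBlocks_multiply, fromBlocks_multiply]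
  simp [smul_smul, mul_comm]

theorem dM_blocks {a b : Type*} [Fintype a] [Fintype b] [DecidableEq a] [DecidableEq b] (c : F) :
    L.dM (fromBlocks (c • (1 : Matrix a a F)) 0 0 (1 : Matrix b b F))
      = fromBlocks (L.nab c • (1 : Matrix a a F)) 0 0 0 := by
  ext i j
  rcases i with i | i <;> rcases j with j | j
  · by_cases h : i = j
    · subst h; simp [dM]
    · simp [dM, Matrix.one_apply_ne h, L.nab_zero]
  · simp [dM, L.nab_zero]
  · simp [dM, L.nab_zero]
  · by_cases h : i = j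
    · subst h; simp [dM, L.nab_one]
    · simp [dM, Matrix.one_apply_ne h, L.nab_zero]

theorem gauge_blocks {a b : Type*} [Fintype a] [Fintype b] [DecidableEq a] [DecidableEq b]
    (X : Matrix a a F) (Y : Matrix a b F) (Z : Matrix b a F) (W : Matrix b b F) {c : F}
    (hc : c ≠ 0) :
    L.Gauge (fromBlocks X Y Z W) (fromBlocks (X + (c⁻¹ * L.nab c) • 1) (c⁻¹ • Y) (c • Z) W)
      (fromBlocks (c • (1 : Matrix a a F)) 0 0 (1 : Matrix b b F))
      (fromBlocks (c⁻¹ • (1 : Matrix a a F)) 0 0 (1 : Matrix b b F)) where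
  mul_inv := by
    rw [fromBlocks_multiply]
    simp [smul_smul, mul_inv_cancel₀ hc, inv_mul_cancel₀ hc]
  inv_mul := by
    rw [fromBlocks_multiply]
    simp [smul_smul, mul_inv_cancel₀ hc, inv_mul_cancel₀ hc]
  eq := by
    rw [blocks_conj, dM_blocks, fromBlocks_multiply, fromBlocks_add]
    simp [smul_smul, inv_mul_cancel₀ hc, mul_comm]

theorem Reg.fromBlocks {a b c d : Type*} {X : Matrix a c F} {Y : Matrix a d F} {Z : Matrix b c F}
    {W : Matrix b d F} (hX : L.Reg X) (hY : L.Reg Y) (hZ : L.Reg Z) (hW : L.Reg W) :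
    L.Reg (fromBlocks X Y Z W) := by
  intro i j
  rcases i with i | i <;> rcases j with j | j
  · exact hX i j
  · exact hY i j
  · exact hZ i j
  · exact hW i j

theorem val_fromBlocks {a b c d : Type*} (X : Matrix a c F) (Y : Matrix a d F) (Z : Matrix b c F)
    (W : Matrix b d F) :
    L.val (fromBlocks X Y Z W) = fromBlocks (L.val X) (L.val Y) (L.val Z) (L.val W) := by
  ext i j
  rcases i with i | i <;> rcases j with j | j <;> rfl

theorem val_lam_smul {a b : Type*} {Y : Matrix a b F} (hY : L.Reg Y) : L.val (L.lam • Y) = 0 := by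
  ext i j
  simp only [val, Matrix.map_apply, Matrix.smul_apply, smul_eq_mul, Matrix.zero_apply]
  rw [L.v0_mul L.reg_lam (hY i j), L.v0_lam, zero_mul]

theorem reg_lam_inv_smul {a b : Type*} {Y : Matrix a b F} (hY : L.Reg Y) (h0 : L.val Y = 0) :
    L.Reg (L.lam⁻¹ • Y) := by
  intro i j
  exact L.reg_lam_inv_mul (hY i j) (congrFun (congrFun h0 i) j)

theorem val_cst_smul_one {a : Type*} [DecidableEq a] [Fintype a] (r : E) :
    L.val (L.cst r • (1 : Matrix a a F)) = scalar a r := by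
  ext i j
  by_cases h : i = j
  · subst h; simp [val, L.v0_cst]
  · simp [val, Matrix.one_apply_ne h, Matrix.diagonal_apply_ne _ h, L.v0_zero]

theorem shear_step [CharZero E] {n : Type*} [Fintype n] [DecidableEq n] (G : Matrix n n F)
    (hG : L.Reg G) (k : ℤ) (hk : k ≠ 0) (hroot : (L.val G).charpoly.eval (k : E) = 0) :
    ∃ (a b : ℕ) (G' : Matrix (Fin a ⊕ Fin b) (Fin a ⊕ Fin b) F) (H : Matrix n (Fin a ⊕ Fin b) F)
      (H' : Matrix (Fin a ⊕ Fin b) n F), L.Gauge G G' H H' ∧ L.Reg G' ∧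
        meas (L.val G').charpoly < meas (L.val G).charpoly := by
  obtain ⟨a, b, P, Q, A1, A2, hPQ, hQP, hbl, hA1, hA2⟩ := fitting (L.val G - scalar n (k : E))
  have hg := Gauge.const (L := L) G hPQ hQP
  set G1 := Q.map L.cst * G * P.map L.cst with hG1
  have hregG1 : L.Reg G1 := ((Reg.map_cst Q).mul hG).mul (Reg.map_cst P)
  have hbl2 : Q * L.val G * P = fromBlocks (A1 + scalar _ (k : E)) 0 0 (A2 + scalar _ (k : E)) := by
    rw [conj_sub_scalar hQP] at hbl
    have h2 : Q * L.val G * P = fromBlocks A1 0 0 A2 + scalar _ (k : E) := by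
      rw [← hbl]; abel
    rw [h2, scalar_sum, Matrix.fromBlocks_add, add_zero, add_zero]
  have hval : L.val G1 = fromBlocks (A1 + scalar _ (k : E)) 0 0 (A2 + scalar _ (k : E)) := by
    rw [hG1, val_mul ((Reg.map_cst Q).mul hG) (Reg.map_cst P), val_mul (Reg.map_cst Q) hG, val_cst,
      val_cst, hbl2]
  have hch : (L.val G).charpoly = (X - C (k : E)) ^ a * (A2 + scalar _ (k : E)).charpoly := by
    rw [← charpoly_conj hPQ hQP, hbl2, charpoly_fromBlocks_zero₁₂, charpoly_nil_add hA1,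
      Fintype.card_fin]
  have hA2r := charpoly_unit_add_eval hA2 (k : E)
  have ha : a ≠ 0 := by
    rintro rfl
    rw [hch, pow_zero, one_mul] at hroot
    exact hA2r hroot
  have hne : (A2 + scalar _ (k : E)).charpoly ≠ 0 := (charpoly_monic _).ne_zero
  have hm : meas (L.val G).charpoly = a * k.natAbs + meas (A2 + scalar _ (k : E)).charpoly := by
    rw [hch, meas_mul (pow_ne_zero _ (X_sub_C_ne_zero _)) hne, meas_X_sub_C_pow, iv_int]
  -- the blocks of `G1`
  obtain ⟨X1, Y1, Z1, W1, hblocks⟩ : ∃ X1 Y1 Z1 W1, G1 = fromBlocks X1 Y1 Z1 W1 :=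
    ⟨_, _, _, _, (fromBlocks_toBlocks G1).symm⟩
  rw [hblocks] at hval hregG1 hg
  rw [val_fromBlocks] at hval
  obtain ⟨hvX, hvY, hvZ, hvW⟩ := fromBlocks_inj.mp hval
  have hrX : L.Reg X1 := fun i j => hregG1 (Sum.inl i) (Sum.inl j)
  have hrY : L.Reg Y1 := fun i j => hregG1 (Sum.inl i) (Sum.inr j)
  have hrZ : L.Reg Z1 := fun i j => hregG1 (Sum.inr i) (Sum.inl j)
  have hrW : L.Reg W1 := fun i j => hregG1 (Sum.inr i) (Sum.inr j)
  have hone : ∀ t : ℤ, L.Reg (((t : F)) • (1 : Matrix (Fin a) (Fin a) F)) := by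
    intro t
    have : (t : F) = L.cst (t : E) := by simp
    rw [this]
    exact Reg.smul (L.reg_cst _) Reg.one
  have hvone : ∀ t : ℤ, L.val (((t : F)) • (1 : Matrix (Fin a) (Fin a) F)) = scalar _ (t : E) := by
    intro t
    have : (t : F) = L.cst (t : E) := by simp
    rw [this, L.val_cst_smul_one]
  rcases lt_or_gt_of_ne hk with hneg | hpos
  · -- `k < 0`
    have h2 := L.gauge_blocks X1 Y1 Z1 W1 L.lam_ne
    have e1 : L.lam⁻¹ * L.nab L.lam = ((1 : ℤ) : F) := by
      rw [L.nab_lam, inv_mul_cancel₀ L.lam_ne]; simp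
    rw [e1] at h2
    refine ⟨a, b, _, _, _, hg.trans h2, ?_, ?_⟩
    · exact Reg.fromBlocks L (hrX.add (hone 1)) (L.reg_lam_inv_smul hrY hvY)
        (Reg.smul L.reg_lam hrZ) hrW
    · have hv : (L.val (Matrix.fromBlocks (X1 + ((1 : ℤ) : F) • 1) (L.lam⁻¹ • Y1) (L.lam • Z1) W1)).charpoly
          = (X - C ((k + 1 : ℤ) : E)) ^ a * (A2 + scalar _ (k : E)).charpoly := by
        rw [val_fromBlocks, L.val_lam_smul hrZ, val_add, hvX, hvW, hvone, charpoly_fromBlocks_zero₂₁]
        congr 1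
        have : A1 + scalar _ (k : E) + scalar _ (((1 : ℤ)) : E) = A1 + scalar _ ((k + 1 : ℤ) : E) := by
          rw [add_assoc, ← map_add]; push_cast; rfl
        rw [this, charpoly_nil_add hA1, Fintype.card_fin]
      rw [hv, meas_mul (pow_ne_zero _ (X_sub_C_ne_zero _)) hne, meas_X_sub_C_pow, iv_int, hm]
      have hlt : (k + 1).natAbs < k.natAbs := by omega
      have := Nat.mul_lt_mul_of_pos_left hlt (Nat.pos_of_ne_zero ha)
      omega
  · -- `0 < k`
    have h2 := L.gauge_blocks X1 Y1 Z1 W1 (inv_ne_zero L.lam_ne)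
    have e1 : (L.lam⁻¹)⁻¹ * L.nab L.lam⁻¹ = ((-1 : ℤ) : F) := by
      rw [L.nab_lam_inv, inv_inv, mul_neg, mul_inv_cancel₀ L.lam_ne]; simp
    rw [e1, inv_inv] at h2
    refine ⟨a, b, _, _, _, hg.trans h2, ?_, ?_⟩
    · exact Reg.fromBlocks L (hrX.add (hone (-1))) (Reg.smul L.reg_lam hrY)
        (L.reg_lam_inv_smul hrZ hvZ) hrW
    · have hv : (L.val (Matrix.fromBlocks (X1 + ((-1 : ℤ) : F) • 1) (L.lam • Y1) (L.lam⁻¹ • Z1) W1)).charpoly
          = (X - C ((k - 1 : ℤ) : E)) ^ a * (A2 + scalar _ (k : E)).charpoly := by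
        rw [val_fromBlocks, L.val_lam_smul hrY, val_add, hvX, hvW, hvone, charpoly_fromBlocks_zero₁₂]
        congr 1
        have : A1 + scalar _ (k : E) + scalar _ (((-1 : ℤ)) : E) = A1 + scalar _ ((k - 1 : ℤ) : E) := by
          rw [add_assoc, ← map_add]; push_cast; rw [sub_eq_add_neg]
        rw [this, charpoly_nil_add hA1, Fintype.card_fin]
      rw [hv, meas_mul (pow_ne_zero _ (X_sub_C_ne_zero _)) hne, meas_X_sub_C_pow, iv_int, hm]
      have hlt : (k - 1).natAbs < k.natAbs := by omega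
      have := Nat.mul_lt_mul_of_pos_left hlt (Nat.pos_of_ne_zero ha)
      omega

theorem shear_aux [CharZero E] : ∀ (N : ℕ) {n : Type} [Fintype n] [DecidableEq n]
    (G : Matrix n n F), L.Reg G → meas (L.val G).charpoly ≤ N → L.Sheared G := by
  intro N
  induction N with
  | zero =>
    intro n _ _ G hG hm
    refine L.shear_base G hG fun k hk hroot => ?_
    obtain ⟨a, b, G', H, H', _, _, hlt⟩ := L.shear_step G hG k hk hroot
    omega
  | succ N ih =>
    intro n _ _ G hG hm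
    by_cases h : ∀ k : ℤ, k ≠ 0 → (L.val G).charpoly.eval (k : E) ≠ 0
    · exact L.shear_base G hG h
    · push Not at h
      obtain ⟨k, hk, hroot⟩ := h
      obtain ⟨a, b, G', H, H', hg, hr, hlt⟩ := L.shear_step G hG k hk hroot
      obtain ⟨a', b', G'', H₂, H₂', Bu, Bn, hg2, hr2, hv2, hB1, hB2⟩ := ih G' hr (by omega)
      exact ⟨a', b', G'', _, _, Bu, Bn, hg.trans hg2, hr2, hv2, hB1, hB2⟩

/-- **SHEAR.** -/
theorem shear [CharZero E] {n : Type} [Fintype n] [DecidableEq n] (G : Matrix n n F)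
    (hG : L.Reg G) : L.Sheared G := L.shear_aux _ G hG le_rfl

end LF

end Pool.Agent.H1.CU
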