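import Pool.Agent.H93.CUBE.LDefs
import Pool.Agent.H10.CM.FStmts
import Pool.Agent.H44.CM.XDE
import Pool.Agent.H1.CU.Mor
import Pool.Agent.H1.CU.Shear

/-! Cube project, block LIMIT: `E(x)` and `E((x))` as `LF`, normal form data. -/

set_option autoImplicit false

namespace Pool.Agent.H1.CU

open Matrix Pool.CM Pool.H93.Cube Polynomial

variable {X : Idx} {E K : Type} [Field E] [Field K]

theorem charZero_of_ax {A : PF X E} (hA : A.Ax) : CharZero E := by
  obtain ⟨i, _⟩ := X.unb 0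
  obtain ⟨q, hq⟩ := CharP.exists E
  rcases CharP.char_is_prime_or_zero E q with hp | h0
  · exfalso
    have : Fact q.Prime := ⟨hp⟩
    have hne : ((X.p i : ℕ) : E) ≠ 0 := by
      intro h
      apply hA.p_inv i
      rw [h, _root_.inv_zero]
      exact (A.O i).zero_mem
    have hne' : ((X.p i : ℕ) : ZMod q) ≠ 0 := by
      intro h
      apply hne
      rw [CharP.cast_eq_zero_iff E q]
      exact (CharP.cast_eq_zero_iff (ZMod q) q _).mp h
    have h1 : ((X.p i : ℕ) : ZMod q) * ((((X.p i : ℕ) : ZMod q)⁻¹.val : ℕ) : ZMod q) = 1 := by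
      rw [ZMod.natCast_zmod_val, mul_inv_cancel₀ hne']
    have h2 := congrArg (ZMod.castHom (dvd_refl q) E) h1
    rw [map_mul, map_natCast, map_natCast, map_one] at h2
    apply hA.p_inv i
    rw [← eq_inv_of_mul_eq_one_right h2]
    exact natCast_mem _ _
  · subst h0
    exact CharP.charP_to_charZero E

theorem exP_C (a : E) : exP E (Polynomial.C a) = HahnSeries.C a := by
  ext k
  rcases lt_or_ge k 0 with hk | hk
  · rw [exP_coeff_neg _ _ hk, HahnSeries.C_apply, HahnSeries.coeff_single_of_ne (ne_of_lt hk)]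
  · obtain ⟨b, rfl⟩ := Int.eq_ofNat_of_zero_le hk
    rw [exP_coeff_nat, Polynomial.coeff_C, HahnSeries.C_apply]
    by_cases h : b = 0
    · subst h; simp
    · rw [if_neg h, HahnSeries.coeff_single_of_ne (by exact_mod_cast h)]

theorem exP_X : exP E Polynomial.X = HahnSeries.single 1 1 := by
  ext k
  rcases lt_or_ge k 0 with hk | hk
  · rw [exP_coeff_neg _ _ hk, HahnSeries.coeff_single_of_ne (by omega)]
  · obtain ⟨b, rfl⟩ := Int.eq_ofNat_of_zero_le hk
    rw [exP_coeff_nat, Polynomial.coeff_X]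
    by_cases h : 1 = b
    · subst h; simp
    · rw [if_neg h, HahnSeries.coeff_single_of_ne (by omega)]

theorem ex_nabF (x : RatFunc E) (k : ℤ) :
    (ex E (nabF E x)).coeff k = (k : E) * (ex E x).coeff k := by
  let τ : ℤ → E →+ E := fun k => AddMonoidHom.mulLeft (k : E)
  have h : ex E (fd (nabP E) x) = XDE.T τ (ex E x) := by
    refine XDE.ex_D (fun y => fd (nabP E) y) (fun y z => ?_) τ ?_ ?_ x
    · simp only [Derivation.leibniz, smul_eq_mul]
    · intro i j u v
      change ((i + j : ℤ) : E) * (u * v) = (i : E) * u * v + u * ((j : E) * v)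
      push_cast
      ring
    · intro g
      rw [fd_algebraMap, ex_algebraMap]
      ext k
      rw [XDE.T_coeff]
      change _ = (k : E) * (exP E g).coeff k
      rcases lt_or_ge k 0 with hk | hk
      · rw [exP_coeff_neg _ _ hk, exP_coeff_neg _ _ hk, mul_zero]
      · obtain ⟨b, rfl⟩ := Int.eq_ofNat_of_zero_le hk
        rw [exP_coeff_nat, exP_coeff_nat, Int.cast_natCast]
        exact nabP_coeff g b
  exact congrArg (fun f : LaurentSeries E => f.coeff k) h

theorem ex_dC (δ : Derivation ℤ E E) (x : RatFunc E) (k : ℤ) :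
    (ex E (fd (L := RatFunc E) (dCoeff δ) x)).coeff k = δ ((ex E x).coeff k) := by
  let τ : ℤ → E →+ E := fun _ => δ.toLinearMap.toAddMonoidHom
  have h : ex E (fd (dCoeff δ) x) = XDE.T τ (ex E x) := by
    refine XDE.ex_D (fun y => fd (dCoeff δ) y) (fun y z => ?_) τ ?_ ?_ x
    · simp only [Derivation.leibniz, smul_eq_mul]
    · intro i i' u v
      change δ (u * v) = δ u * v + u * δ v
      rw [Derivation.leibniz, smul_eq_mul, smul_eq_mul]
      ring
    · intro g
      rw [fd_algebraMap, ex_algebraMap]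
      ext k
      rw [XDE.T_coeff]
      change _ = δ ((exP E g).coeff k)
      rcases lt_or_ge k 0 with hk | hk
      · rw [exP_coeff_neg _ _ hk, exP_coeff_neg _ _ hk, map_zero]
      · obtain ⟨b, rfl⟩ := Int.eq_ofNat_of_zero_le hk
        rw [exP_coeff_nat, exP_coeff_nat]
        exact dCoeff_coeff δ g b
  exact congrArg (fun f : LaurentSeries E => f.coeff k) h

/-- `E(x)` -/
noncomputable def LFr (E : Type) [Field E] : LF E (RatFunc E) where
  ex := Pool.CM.ex E
  lam := algebraMap E[X] (RatFunc E) Polynomial.X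
  ex_lam := by rw [ex_algebraMap, exP_X]
  cst := (algebraMap E[X] (RatFunc E)).comp Polynomial.C
  ex_cst a := by rw [RingHom.comp_apply, ex_algebraMap, exP_C]
  nab := fun x => nabF E x
  ex_nab := ex_nabF

/-- a derivation of `E`, on `E(x)` -/
noncomputable def DDr (δ : Derivation ℤ E E) : (LFr E).DD where
  DE := δ
  DF := fun x => fd (L := RatFunc E) (dCoeff δ) x
  ex_DF := ex_dC δ

/-- a derivation of `E`, on `E((x))` -/
noncomputable def DDu (δ : Derivation ℤ E E) : (LF.univ E).DD where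
  DE := δ
  DF := cmap (δ : E →+ E)
  ex_DF := fun _ _ => rfl

/-- expansion at `0` -/
noncomputable def morEx (E : Type) [Field E] : LF.Mor (LFr E) (LF.univ E) where
  κ := RingHom.id E
  σ := ex E
  comp := fun _ _ => rfl

/-- expansion at `0` and base change -/
noncomputable def morK (κ : E →+* K) : LF.Mor (LFr E) (LF.univ K) where
  κ := κ
  σ := (cmapR κ).comp (ex E)
  comp := fun _ _ => rfl

/-- base change -/
noncomputable def morU (κ : E →+* K) : LF.Mor (LF.univ E) (LF.univ K) where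
  κ := κ
  σ := cmapR κ
  comp := fun _ _ => rfl

section conv

variable {m m' : Type}

theorem Reg_iff {G : Matrix m m' (LaurentSeries E)} : (LF.univ E).Reg G ↔ MReg G := Iff.rfl

theorem val_eq (G : Matrix m m' (LaurentSeries E)) : (LF.univ E).val G = cz G := rfl

theorem dM_eq (G : Matrix m m' (LaurentSeries E)) : (LF.univ E).dM G = G.map nab := rfl

theorem cst_eq (B : Matrix m m' E) : B.map (LF.univ E).cst = cM B := rfl

theorem op_eq [Fintype m] (G : Matrix m m (LaurentSeries E)) (v : m → LaurentSeries E) :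
    (LF.univ E).op G v = Pool.H93.Cube.op G v := rfl

theorem op_iterate_eq [Fintype m] (G : Matrix m m (LaurentSeries E)) (q : ℕ)
    (v : m → LaurentSeries E) :
    ((LF.univ E).op G)^[q] v = ((Pool.H93.Cube.op G) ^ q) v := by
  rw [Module.End.pow_apply]
  rfl

theorem Reg_iff' {G : Matrix m m' (RatFunc E)} : (LFr E).Reg G ↔ MReg (G.map (ex E)) := Iff.rfl

theorem det_iff [Fintype m] [DecidableEq m] (B : Matrix m m E) :
    (∀ i : ℤ, B.charpoly.eval (i : E) ≠ 0) ↔
      ∀ z : ℤ, (B + (z : E) • (1 : Matrix m m E)).det ≠ 0 := by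
  have h : ∀ z : ℤ, B + (z : E) • (1 : Matrix m m E) = -(scalar m ((-z : ℤ) : E) - B) := by
    intro z
    have h1 : scalar m ((-z : ℤ) : E) = ((-z : ℤ) : E) • (1 : Matrix m m E) := by
      ext i j
      by_cases hij : i = j
      · subst hij; simp
      · simp [Matrix.diagonal_apply_ne _ hij, Matrix.one_apply_ne hij]
    rw [h1]
    push_cast
    rw [neg_smul]
    abel
  constructor
  · intro h1 z h2
    apply h1 (-z)
    rw [eval_charpoly]
    rw [h, det_neg] at h2
    exact (mul_eq_zero.mp h2).resolve_left (pow_ne_zero _ (neg_ne_zero.mpr one_ne_zero))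
  · intro h1 i h2
    apply h1 (-i)
    rw [h, det_neg, neg_neg, ← eval_charpoly, h2, mul_zero]

theorem nf_iff {u w : Type} [Fintype u] [DecidableEq u] [Fintype w] [DecidableEq w]
    {G : Matrix (u ⊕ w) (u ⊕ w) (LaurentSeries E)} {Bu : Matrix u u E} {Bn : Matrix w w E} :
    (LF.univ E).NF G Bu Bn ↔ NF G Bu Bn :=
  ⟨fun h => ⟨h.reg, h.val, h.nil, (det_iff Bn).mp h.noint⟩,
    fun h => ⟨h.reg, h.c0, h.nil, (det_iff Bn).mpr h.inv⟩⟩

theorem gauge_iff [Fintype m] [DecidableEq m] [Fintype m'] [DecidableEq m']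
    {G : Matrix m m (RatFunc E)} {H : Matrix m m' (RatFunc E)} {H' : Matrix m' m (RatFunc E)}
    (h : Inv2 H H') : (LFr E).Gauge G (gau (nabF E) H H' G) H H' where
  mul_inv := h.2
  inv_mul := h.1
  eq := by
    unfold gau
    rw [add_comm]
    rfl

theorem gau_of_gauge [Fintype m] [DecidableEq m] [Fintype m'] [DecidableEq m']
    {G : Matrix m m (RatFunc E)} {G' : Matrix m' m' (RatFunc E)} {H : Matrix m m' (RatFunc E)}
    {H' : Matrix m' m (RatFunc E)} (h : (LFr E).Gauge G G' H H') :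
    Inv2 H H' ∧ gau (nabF E) H H' G = G' := by
  refine ⟨⟨h.inv_mul, h.mul_inv⟩, ?_⟩
  rw [h.eq]
  unfold gau
  rw [add_comm]
  rfl

end conv

/-- Gauge transformation to the normal form, with the flat sections. -/
structure NFD {m : Type} [Fintype m] [DecidableEq m] (G : Matrix m m (RatFunc E)) (u w : Type)
    [Fintype u] [DecidableEq u] [Fintype w] [DecidableEq w] where
  H : Matrix m (u ⊕ w) (RatFunc E)
  H' : Matrix (u ⊕ w) m (RatFunc E)
  inv : Inv2 H H'
  Bu : Matrix u u E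
  Bn : Matrix w w E
  nf : NF ((gau (nabF E) H H' G).map (ex E)) Bu Bn
  Y : Matrix (u ⊕ w) u (LaurentSeries E)
  Y' : Matrix (u ⊕ w) u (LaurentSeries E)
  rY : MReg Y
  rY' : MReg Y'
  cY : cz Y = fromRows 1 0
  cY' : cz Y' = fromRows 1 0
  hY : Y.map nab + (gau (nabF E) H H' G).map (ex E) * Y = Y * cM Bu
  hY' : Y'.map nab - ((gau (nabF E) H H' G).map (ex E)).transpose * Y' =
    -(Y' * cM Bu.transpose)

theorem exists_isFlat [CharZero E] {u w : Type} [Fintype u] [DecidableEq u] [Fintype w]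
    [DecidableEq w] {G : Matrix (u ⊕ w) (u ⊕ w) (LaurentSeries E)} {Bu : Matrix u u E}
    {Bn : Matrix w w E} (h : (LF.univ E).NF G Bu Bn) :
    ∃ Y, (LF.univ E).IsFlat G Bu Y := by
  obtain ⟨Y, h1, h2, h3⟩ := exists_flat (q := u) h.reg h.nil (Y0 := fromRows 1 0) (by
    rw [h.val, fromBlocks_mul_fromRows, fromRows_mul]
    simp) (fun m hm => h.inv (ne_of_gt hm))
  exact ⟨Y, h3, h2, h1⟩

theorem neg_form {u w : Type} [Fintype u] [DecidableEq u] [Fintype w] [DecidableEq w]
    {G : Matrix (u ⊕ w) (u ⊕ w) (LaurentSeries E)} {Bu : Matrix u u E}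
    {Y' : Matrix (u ⊕ w) u (LaurentSeries E)} :
    (LF.univ E).dM Y' + -Gᵀ * Y' = Y' * (-Buᵀ).map (LF.univ E).cst ↔
      Y'.map nab - Gᵀ * Y' = -(Y' * cM Buᵀ) := by
  have hm : (-Buᵀ).map (LF.univ E).cst = -(cM Buᵀ) := by
    ext i j
    exact congrArg (fun z : LaurentSeries E => z.coeff _) (map_neg (HahnSeries.C) _)
  rw [hm, dM_eq, Matrix.neg_mul, Matrix.mul_neg, ← sub_eq_add_neg]

theorem exists_NFD [CharZero E] {m : Type} [Fintype m] [DecidableEq m]
    (G : Matrix m m (RatFunc E)) {u w : Type} [Fintype u] [DecidableEq u] [Fintype w]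
    [DecidableEq w] {H : Matrix m (u ⊕ w) (RatFunc E)} {H' : Matrix (u ⊕ w) m (RatFunc E)}
    (hi : Inv2 H H') {Bu : Matrix u u E} {Bn : Matrix w w E}
    (h : NF ((gau (nabF E) H H' G).map (ex E)) Bu Bn) :
    ∃ d : NFD G u w, d.H = H ∧ d.H' = H' ∧ d.Bu = Bu ∧ d.Bn = Bn := by
  have h0 := nf_iff.mpr h
  obtain ⟨Y, hY⟩ := exists_isFlat h0
  obtain ⟨Y', hY'⟩ := exists_isFlat h0.dual
  exact ⟨⟨H, H', hi, Bu, Bn, h, Y, Y', hY.reg, hY'.reg, hY.val, hY'.val, hY.eq,
    neg_form.mp hY'.eq⟩, rfl, rfl, rfl, rfl⟩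

/-- SHEAR and FLAT for a regular connection. -/
theorem exists_NFD_of_reg [CharZero E] {m : Type} [Fintype m] [DecidableEq m]
    (G : Matrix m m (RatFunc E)) {m' : Type} [Fintype m'] [DecidableEq m']
    {H : Matrix m m' (RatFunc E)} {H' : Matrix m' m (RatFunc E)}
    (hi : Inv2 H H') (h : MReg ((gau (nabF E) H H' G).map (ex E))) :
    ∃ a b : ℕ, Nonempty (NFD G (Fin a) (Fin b)) := by
  obtain ⟨a, b, G2, H2, H2', Bu, Bn, hg, hr, hv, hn, hc⟩ := (LFr E).shear _ (Reg_iff'.mpr h)
  obtain ⟨h1, h2⟩ := gau_of_gauge ((gauge_iff hi).trans hg)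
  have hnf : (LFr E).NF G2 Bu Bn := ⟨hr, hv, hn, hc⟩
  have h3 := (morEx E).nf hnf
  have h4 : (LF.univ E).NF (G2.map (ex E)) Bu Bn := h3
  rw [← h2] at h4
  obtain ⟨d, _⟩ := exists_NFD G h1 (nf_iff.mp h4)
  exact ⟨a, b, ⟨d⟩⟩

end Pool.Agent.H1.CU
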