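import Pool.Agent.H1.CU.LDX1

/-! Cube project, block LIMIT: from normal form data to limit data. -/

set_option autoImplicit false

namespace Pool.Agent.H1.CU

open Matrix Pool.CM Pool.H93.Cube

variable {E : Type} [Field E] {m u w : Type} [Fintype m] [DecidableEq m] [Fintype u]
  [DecidableEq u] [Fintype w] [DecidableEq w] {G : Matrix m m (RatFunc E)}

theorem IsFlat_complete_K {K : Type} [Field K] [CharZero K] {M : Matrix m m (LaurentSeries K)}
    {M2 : Matrix (u ⊕ w) (u ⊕ w) (LaurentSeries K)} {H : Matrix m (u ⊕ w) (LaurentSeries K)}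
    {H' : Matrix (u ⊕ w) m (LaurentSeries K)} (hg : (LF.univ K).Gauge M M2 H H')
    {Bu : Matrix u u K} {Bn : Matrix w w K} (hnf : (LF.univ K).NF M2 Bu Bn)
    {Y : Matrix (u ⊕ w) u (LaurentSeries K)} (hY : (LF.univ K).IsFlat M2 Bu Y) {q : ℕ}
    {v : m → LaurentSeries K} (hv : ((Pool.H93.Cube.op M) ^ q) v = 0) :
    ∃ x : u → K, ∀ a, v a = ∑ b, (H * Y) a b * HahnSeries.C (x b) := by
  have h1 : ((LF.univ K).op M2)^[q] (H' *ᵥ v) = 0 := by
    rw [hg.symm.op_iterate, op_iterate_eq, hv, Matrix.mulVec_zero]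
  obtain ⟨x, hx⟩ := LF.IsFlat.complete hnf hY h1
  refine ⟨x, fun a => ?_⟩
  have h2 : v = (H * Y) *ᵥ ((LF.univ K).cst ∘ x) := by
    rw [← Matrix.mulVec_mulVec, ← hx, Matrix.mulVec_mulVec, hg.mul_inv, Matrix.one_mulVec]
  rw [congrFun h2 a]
  rfl

namespace NFD

variable (d : NFD G u w)

/-- generalised horizontal vectors -/
noncomputable def Z : Matrix m u (LaurentSeries E) := d.H.map (ex E) * d.Y

/-- generalised horizontal vectors of the dual connection -/
noncomputable def Z' : Matrix m u (LaurentSeries E) := (d.H'.map (ex E)).transpose * d.Y'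

theorem gauge : (LFr E).Gauge G (gau (nabF E) d.H d.H' G) d.H d.H' := gauge_iff d.inv

theorem gaugeU : (LF.univ E).Gauge (G.map (ex E)) ((gau (nabF E) d.H d.H' G).map (ex E))
    (d.H.map (ex E)) (d.H'.map (ex E)) := (morEx E).gauge d.gauge

theorem nfU : (LF.univ E).NF ((gau (nabF E) d.H d.H' G).map (ex E)) d.Bu d.Bn := nf_iff.mpr d.nf

theorem flat : (LF.univ E).IsFlat ((gau (nabF E) d.H d.H' G).map (ex E)) d.Bu d.Y :=
  ⟨d.hY, d.cY, d.rY⟩

theorem flat' : (LF.univ E).IsFlat (-((gau (nabF E) d.H d.H' G).map (ex E))ᵀ) (-d.Buᵀ) d.Y' :=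
  ⟨neg_form.mpr d.hY', d.cY', d.rY'⟩

theorem YY [CharZero E] : d.Y'ᵀ * d.Y = 1 := LF.IsFlat.pairing d.nfU d.flat d.flat'

theorem ZZ [CharZero E] : d.Z'ᵀ * d.Z = 1 := by
  unfold Z Z'
  rw [Matrix.transpose_mul, Matrix.transpose_transpose, Matrix.mul_assoc,
    ← Matrix.mul_assoc (d.H'.map (ex E)), d.gaugeU.inv_mul, Matrix.one_mul, d.YY]

theorem hZ : d.Z.map nab + G.map (ex E) * d.Z = d.Z * cM d.Bu := by
  have h := d.gaugeU.conj d.Y
  rw [dM_eq, dM_eq, d.hY, ← Matrix.mul_assoc (d.H.map (ex E)) d.Y] at h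
  exact h

theorem hZ' : d.Z'.map nab - (G.map (ex E)).transpose * d.Z' = -(d.Z' * cM d.Bu.transpose) := by
  have h := d.gaugeU.dual.conj d.Y'
  rw [d.flat'.eq, ← Matrix.mul_assoc ((d.H'.map (ex E))ᵀ) d.Y', dM_eq, Matrix.neg_mul,
    ← sub_eq_add_neg] at h
  refine h.trans ?_
  have hm : (-d.Buᵀ).map (LF.univ E).cst = -(cM d.Buᵀ) := by
    ext i j
    exact congrArg (fun z : LaurentSeries E => z.coeff _) (map_neg (HahnSeries.C) _)
  rw [hm, Matrix.mul_neg]
  rfl

theorem compl [CharZero E] (K : Type) [Field K] (κ : E →+* K) (q : ℕ) (v : m → LaurentSeries K)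
    (hv : ((op (G.map ((cmapR κ).comp (ex E)))) ^ q) v = 0) :
    ∃ x : u → K, ∀ a, v a = ∑ b, cmapR κ (d.Z a b) * HahnSeries.C (x b) := by
  have : CharZero K := charZero_of_injective_ringHom κ.injective
  obtain ⟨x, hx⟩ := IsFlat_complete_K ((morU κ).gauge d.gaugeU) ((morU κ).nf d.nfU)
    ((morU κ).isFlat d.flat) hv
  refine ⟨x, fun a => ?_⟩
  rw [hx a]
  refine Finset.sum_congr rfl fun b _ => ?_
  congr 1
  unfold Z
  rw [← Matrix.map_mul]
  rfl

theorem compl' [CharZero E] (K : Type) [Field K] (κ : E →+* K) (q : ℕ) (v : m → LaurentSeries K)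
    (hv : ((op (-(G.map ((cmapR κ).comp (ex E))).transpose)) ^ q) v = 0) :
    ∃ x : u → K, ∀ a, v a = ∑ b, cmapR κ (d.Z' a b) * HahnSeries.C (x b) := by
  have : CharZero K := charZero_of_injective_ringHom κ.injective
  have e1 : (-(G.map (ex E))ᵀ).map (morU κ).σ = -(G.map ((cmapR κ).comp (ex E))).transpose := by
    ext i j
    exact congrArg (fun z : LaurentSeries K => z.coeff _) (map_neg (cmapR κ) _)
  have hg := (morU κ).gauge d.gaugeU.dual
  rw [e1] at hg
  obtain ⟨x, hx⟩ := IsFlat_complete_K hg ((morU κ).nf d.nfU.dual)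
    ((morU κ).isFlat d.flat') hv
  refine ⟨x, fun a => ?_⟩
  rw [hx a]
  refine Finset.sum_congr rfl fun b _ => ?_
  congr 1
  unfold Z'
  rw [← Matrix.map_mul]
  rfl

/-- limit data of one connection -/
noncomputable def toLD0 [CharZero E] : LD0 G u where
  Z := d.Z
  Z' := d.Z'
  N := d.Bu
  ZZ := d.ZZ
  nil := d.nf.nil
  hZ := d.hZ
  hZ' := d.hZ'
  compl := d.compl
  compl' := d.compl'

end NFD

end Pool.Agent.H1.CU
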