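import Pool.Agent.H1.CU.LDX2
import Pool.Agent.H1.CU.Conn

/-! Cube project, block LIMIT: existence of limit data (SHEAR, FLAT, D part, normalisation). -/

set_option autoImplicit false

namespace Pool.Agent.H1.CU

open Matrix Pool.CM Pool.H93.Cube

variable {E : Type} [Field E] {m u w : Type} [Fintype m] [DecidableEq m] [Fintype u]
  [DecidableEq u] [Fintype w] [DecidableEq w] {G : Matrix m m (RatFunc E)}

theorem cmapR_id : cmapR (RingHom.id E) = RingHom.id (LaurentSeries E) := by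
  ext f k
  rfl

theorem ld0_compl (l : LD0 G u) (q : ℕ) (v : m → LaurentSeries E)
    (hv : ((LF.univ E).op (G.map (ex E)))^[q] v = 0) :
    ∃ x : u → E, ∀ a, v a = ∑ b, l.Z a b * HahnSeries.C (x b) := by
  have h := l.compl E (RingHom.id E) q v (by
    rw [cmapR_id, RingHom.id_comp, ← op_iterate_eq]
    exact hv)
  rw [cmapR_id] at h
  exact h

theorem ld0_compl' (l : LD0 G u) (q : ℕ) (v : m → LaurentSeries E)
    (hv : ((LF.univ E).op (-(G.map (ex E))ᵀ))^[q] v = 0) :
    ∃ x : u → E, ∀ a, v a = ∑ b, l.Z' a b * HahnSeries.C (x b) := by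
  have h := l.compl' E (RingHom.id E) q v (by
    rw [cmapR_id, RingHom.id_comp, ← op_iterate_eq]
    exact hv)
  rw [cmapR_id] at h
  exact h

omit [DecidableEq m] [DecidableEq u] in
theorem neg_form' {G : Matrix m m (LaurentSeries E)} {B : Matrix u u E}
    {Y' : Matrix m u (LaurentSeries E)} :
    (LF.univ E).dM Y' + -Gᵀ * Y' = Y' * (-Bᵀ).map (LF.univ E).cst ↔
      Y'.map nab - Gᵀ * Y' = -(Y' * cM Bᵀ) := by
  have hm : (-Bᵀ).map (LF.univ E).cst = -(cM Bᵀ) := by
    ext i j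
    exact congrArg (fun z : LaurentSeries E => z.coeff _) (map_neg (HahnSeries.C) _)
  rw [hm, dM_eq, Matrix.neg_mul, Matrix.mul_neg, ← sub_eq_add_neg]

/-- the induced derivation on the limit data -/
theorem ld0_der (l : LD0 G u) (δ : Derivation ℤ E E) {GD : Matrix m m (RatFunc E)}
    (hc : GD.map (nabF E) + G * GD = G.map (fd (L := RatFunc E) (dCoeff δ)) + GD * G) :
    ∃ W : Matrix u u E, l.Z.map (cmap (δ : E →+ E)) + GD.map (ex E) * l.Z = l.Z * cM W ∧
      l.Z'.map (cmap (δ : E →+ E)) - (GD.map (ex E))ᵀ * l.Z' = -(l.Z' * cM Wᵀ) := by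
  have hcomm : LF.Comm (LF.univ E) (DDu δ) (G.map (ex E)) (GD.map (ex E)) := by
    have h1 := congrArg (fun M : Matrix m m (RatFunc E) => M.map (ex E)) hc
    simp only [Matrix.map_add _ (map_add (ex E)), Matrix.map_mul] at h1
    have h2 : (GD.map (nabF E)).map (ex E) = (LF.univ E).dM (GD.map (ex E)) :=
      ((morEx E).dM GD).symm
    have h3 : (G.map (fd (L := RatFunc E) (dCoeff δ))).map (ex E) = (DDu δ).M (G.map (ex E)) := by
      ext i j k
      exact ex_dC δ _ k
    rw [h2, h3] at h1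
    exact h1
  -- the first equation
  have hZ : (LF.univ E).dM l.Z + G.map (ex E) * l.Z = l.Z * l.N.map (LF.univ E).cst := l.hZ
  have e1 := LF.comm_eq hcomm hZ
  obtain ⟨N1, hN1⟩ := LF.op_nilp l.nil hZ e1
  choose W hW using fun j => ld0_compl l N1 _ (hN1 j)
  have hW' : l.Z.map (cmap (δ : E →+ E)) + GD.map (ex E) * l.Z
      = l.Z * cM (Matrix.of fun b j => W j b) := by
    ext1 i j
    exact hW j i
  -- the second one
  have hZ' : (LF.univ E).dM l.Z' + -(G.map (ex E))ᵀ * l.Z' = l.Z' * (-l.Nᵀ).map (LF.univ E).cst :=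
    neg_form'.mpr l.hZ'
  have e2 := LF.comm_eq hcomm.dual hZ'
  have hnil' : IsNilpotent (-l.Nᵀ) := by
    obtain ⟨k, hk⟩ := l.nil
    refine IsNilpotent.neg ⟨k, ?_⟩
    rw [← Matrix.transpose_pow, hk, Matrix.transpose_zero]
  obtain ⟨N2, hN2⟩ := LF.op_nilp hnil' hZ' e2
  choose W2 hW2 using fun j => ld0_compl' l N2 _ (hN2 j)
  have hW2' : l.Z'.map (cmap (δ : E →+ E)) - (GD.map (ex E))ᵀ * l.Z'
      = l.Z' * (Matrix.of fun b j => W2 j b).map (LF.univ E).cst := by
    rw [sub_eq_add_neg, ← Matrix.neg_mul]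
    ext1 i j
    exact hW2 j i
  refine ⟨_, hW', ?_⟩
  have h3 := DG.dual_conn (DDu δ).dg l.ZZ hW' hW2'
  rw [hW2', h3]
  have hm : (-(Matrix.of fun b j => W j b)ᵀ).map (LF.univ E).cst
      = -(cM (Matrix.of fun b j => W j b)ᵀ) := by
    ext i j
    exact congrArg (fun z : LaurentSeries E => z.coeff _) (map_neg (HahnSeries.C) _)
  rw [hm, Matrix.mul_neg]

namespace NFD

omit [Fintype u] in
theorem blk {v : Type} [Fintype v] [DecidableEq v] {P : Matrix u v E} {Q : Matrix v u E}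
    (h : P * Q = 1) :
    fromBlocks P 0 0 (1 : Matrix w w E) * fromBlocks Q 0 0 (1 : Matrix w w E) = 1 := by
  rw [fromBlocks_multiply, h]
  simp

theorem change (d : NFD G u w) {v : Type} [Fintype v] [DecidableEq v] {P : Matrix u v E}
    {Q : Matrix v u E} (hPQ : P * Q = 1) (hQP : Q * P = 1) :
    ∃ d2 : NFD G v w, d2.Z = d.Z * cM P ∧ d2.Z' = d.Z' * cM Qᵀ ∧ d2.Bu = Q * d.Bu * P := by
  set L := LF.univ E with hL
  set Pb : Matrix (u ⊕ w) (v ⊕ w) E := fromBlocks P 0 0 1 with hPb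
  set Qb : Matrix (v ⊕ w) (u ⊕ w) E := fromBlocks Q 0 0 1 with hQb
  have hb1 : Pb * Qb = 1 := blk hPQ
  have hb2 : Qb * Pb = 1 := blk hQP
  have hc0 := LF.Gauge.const (L := LFr E) (gau (nabF E) d.H d.H' G) hb1 hb2
  have hc := d.gauge.trans hc0
  obtain ⟨hinv, hgau⟩ := gau_of_gauge hc
  set M2 := (gau (nabF E) d.H d.H' G).map (ex E) with hM2
  have hgU : L.Gauge M2 (cM Qb * M2 * cM Pb) (cM Pb) (cM Qb) :=
    LF.Gauge.const (L := L) M2 hb1 hb2
  have hG2 : (gau (nabF E) (d.H * Pb.map (LFr E).cst) (Qb.map (LFr E).cst * d.H') G).map (ex E)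
      = cM Qb * M2 * cM Pb := by
    have e1 := (morEx E).cstM Qb
    have e2 := (morEx E).cstM Pb
    have e3 : (gau (nabF E) (d.H * Pb.map (LFr E).cst) (Qb.map (LFr E).cst * d.H') G).map
        (morEx E).σ = (Qb.map (LFr E).cst).map (morEx E).σ
          * (gau (nabF E) d.H d.H' G).map (morEx E).σ * (Pb.map (LFr E).cst).map (morEx E).σ := by
      rw [hgau, Matrix.map_mul, Matrix.map_mul]
    rw [e1, e2] at e3
    exact e3
  have hflat := d.flat
  have hflat' := d.flat'
  have hnf : L.NF (cM Qb * M2 * cM Pb) (Q * d.Bu * P) d.Bn := by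
    refine ⟨((LF.Reg.map_cst Qb).mul d.nfU.reg).mul (LF.Reg.map_cst Pb), ?_, ?_, d.nfU.noint⟩
    · have h1 := LF.val_mul (L := L) ((LF.Reg.map_cst Qb).mul d.nfU.reg) (LF.Reg.map_cst Pb)
      have h2 := LF.val_mul (L := L) (LF.Reg.map_cst Qb) d.nfU.reg
      rw [h2, LF.val_cst, LF.val_cst, d.nfU.val, hPb, hQb, fromBlocks_multiply,
        fromBlocks_multiply] at h1
      refine h1.trans ?_
      simp
    · obtain ⟨k, hk⟩ := d.nf.nil
      refine ⟨k, ?_⟩
      have h1 : ∀ j : ℕ, (Q * d.Bu * P) ^ j = Q * d.Bu ^ j * P := by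
        intro j
        induction j with
        | zero => rw [pow_zero, pow_zero, Matrix.mul_one, hQP]
        | succ j ih =>
          rw [pow_succ, ih, pow_succ]
          calc Q * d.Bu ^ j * P * (Q * d.Bu * P) = Q * d.Bu ^ j * (P * Q) * d.Bu * P := by
                simp only [Matrix.mul_assoc]
            _ = Q * (d.Bu ^ j * d.Bu) * P := by
                rw [hPQ, Matrix.mul_one]
                simp only [Matrix.mul_assoc]
      rw [h1, hk, Matrix.mul_zero, Matrix.zero_mul]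
  rw [← hG2] at hnf hgU
  have hgU' := hgU.symm
  have hdual := hgU.dual.symm
  have hPQc : cM P * cM Q = 1 := by
    rw [← Matrix.map_mul, hPQ]; simp
  have hQPc : cM Q * cM P = 1 := by
    rw [← Matrix.map_mul, hQP]; simp
  let d2 : NFD G v w :=
    { H := d.H * Pb.map (LFr E).cst
      H' := Qb.map (LFr E).cst * d.H'
      inv := hinv
      Bu := Q * d.Bu * P
      Bn := d.Bn
      nf := nf_iff.mp hnf
      Y := cM Qb * d.Y * cM P
      Y' := (cM Pb)ᵀ * d.Y' * cM Qᵀ
      rY := ((LF.Reg.map_cst Qb).mul hflat.reg).mul (LF.Reg.map_cst P)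
      rY' := ((LF.Reg.map_cst Pb).transpose.mul hflat'.reg).mul (LF.Reg.map_cst Qᵀ)
      cY := by
        have h1 := LF.val_mul (L := L) ((LF.Reg.map_cst Qb).mul hflat.reg) (LF.Reg.map_cst P)
        have h2 := LF.val_mul (L := L) (LF.Reg.map_cst Qb) hflat.reg
        rw [h2, LF.val_cst, LF.val_cst, hflat.val, hQb, fromBlocks_mul_fromRows,
          fromRows_mul] at h1
        refine h1.trans ?_
        simp [hQP]
      cY' := by
        have h1 := LF.val_mul (L := L) ((LF.Reg.map_cst Pb).transpose.mul hflat'.reg)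
          (LF.Reg.map_cst Qᵀ)
        have h2 := LF.val_mul (L := L) (LF.Reg.map_cst Pb).transpose hflat'.reg
        rw [h2, LF.val_transpose, LF.val_cst, LF.val_cst, hflat'.val, hPb, fromBlocks_transpose,
          fromBlocks_mul_fromRows, fromRows_mul] at h1
        refine h1.trans ?_
        have h3 : Pᵀ * Qᵀ = 1 := by rw [← Matrix.transpose_mul, hQP, Matrix.transpose_one]
        simp [h3]
      hY := by
        have h1 := hgU'.conj (d.Y * cM P)
        have h2 : L.dM (d.Y * cM P) + M2 * (d.Y * cM P) = d.Y * cM P * cM (Q * d.Bu * P) := by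
          rw [LF.dM_mul]
          have h3 : L.dM (cM P) = 0 := LF.dM_cst (L := L) P
          have h4 : cM (Q * d.Bu * P) = cM Q * cM d.Bu * cM P := by
            rw [cM, Matrix.map_mul, Matrix.map_mul]
          have h5 : L.dM d.Y = d.Y * cM d.Bu - M2 * d.Y := by
            have := hflat.eq
            rw [← hM2] at this
            rw [eq_sub_iff_add_eq]
            exact this
          rw [h3, Matrix.mul_zero, add_zero, h4, h5, Matrix.sub_mul]
          have h6 : d.Y * cM P * (cM Q * cM d.Bu * cM P) = d.Y * (cM P * cM Q) * cM d.Bu * cM P := by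
            simp only [Matrix.mul_assoc]
          rw [h6, hPQc, Matrix.mul_one, Matrix.mul_assoc M2]
          abel
        have he : cM Qb * (d.Y * cM P) = cM Qb * d.Y * cM P := (Matrix.mul_assoc _ _ _).symm
        rw [h2, ← Matrix.mul_assoc (cM Qb) (d.Y * cM P), he] at h1
        exact h1
      hY' := by
        apply neg_form.mp
        have h1 := hdual.conj (d.Y' * cM Qᵀ)
        have h2 : L.dM (d.Y' * cM Qᵀ) + -M2ᵀ * (d.Y' * cM Qᵀ)
            = d.Y' * cM Qᵀ * (-(Q * d.Bu * P)ᵀ).map L.cst := by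
          rw [LF.dM_mul]
          have h3 : L.dM (cM Qᵀ) = 0 := LF.dM_cst (L := L) Qᵀ
          have h4 : (-(Q * d.Bu * P)ᵀ).map L.cst = (cM P)ᵀ * (-d.Buᵀ).map L.cst * (cM Q)ᵀ := by
            have : -(Q * d.Bu * P)ᵀ = Pᵀ * (-d.Buᵀ) * Qᵀ := by
              rw [Matrix.transpose_mul, Matrix.transpose_mul, Matrix.mul_neg, Matrix.neg_mul,
                Matrix.mul_assoc]
            rw [this, Matrix.map_mul, Matrix.map_mul]
            rfl
          have h5 : L.dM d.Y' = d.Y' * (-d.Buᵀ).map L.cst - -M2ᵀ * d.Y' := by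
            have := hflat'.eq
            rw [← hM2] at this
            rw [eq_sub_iff_add_eq]
            exact this
          have h7 : cM Qᵀ * (cM P)ᵀ = 1 := by
            have : cM Qᵀ = (cM Q)ᵀ := rfl
            rw [this, ← Matrix.transpose_mul, hPQc, Matrix.transpose_one]
          rw [h3, Matrix.mul_zero, add_zero, h4, h5, Matrix.sub_mul]
          have h6 : d.Y' * cM Qᵀ * ((cM P)ᵀ * (-d.Buᵀ).map L.cst * (cM Q)ᵀ)
              = d.Y' * (cM Qᵀ * (cM P)ᵀ) * (-d.Buᵀ).map L.cst * (cM Q)ᵀ := by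
            simp only [Matrix.mul_assoc]
          rw [h6, h7, Matrix.mul_one, Matrix.mul_assoc (-M2ᵀ)]
          have h8 : cM Qᵀ = (cM Q)ᵀ := rfl
          rw [h8]
          abel
        have he : (cM Pb)ᵀ * (d.Y' * cM Qᵀ) = (cM Pb)ᵀ * d.Y' * cM Qᵀ :=
          (Matrix.mul_assoc _ _ _).symm
        rw [h2, ← Matrix.mul_assoc ((cM Pb)ᵀ) (d.Y' * cM Qᵀ), he] at h1
        exact h1 }
  refine ⟨d2, ?_, ?_, rfl⟩
  · change (d.H * Pb.map (LFr E).cst).map (ex E) * (cM Qb * d.Y * cM P)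
      = d.H.map (ex E) * d.Y * cM P
    have e2 : (Pb.map (LFr E).cst).map (ex E) = cM Pb := (morEx E).cstM Pb
    have e3 : cM Pb * cM Qb = 1 := by rw [← Matrix.map_mul, hb1]; simp
    rw [Matrix.map_mul, e2]
    calc d.H.map (ex E) * cM Pb * (cM Qb * d.Y * cM P)
        = d.H.map (ex E) * (cM Pb * cM Qb) * d.Y * cM P := by simp only [Matrix.mul_assoc]
      _ = _ := by rw [e3, Matrix.mul_one]
  · change ((Qb.map (LFr E).cst * d.H').map (ex E))ᵀ * ((cM Pb)ᵀ * d.Y' * cM Qᵀ)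
      = (d.H'.map (ex E))ᵀ * d.Y' * cM Qᵀ
    have e2 : (Qb.map (LFr E).cst).map (ex E) = cM Qb := (morEx E).cstM Qb
    have e3 : (cM Qb)ᵀ * (cM Pb)ᵀ = 1 := by
      rw [← Matrix.transpose_mul, ← Matrix.map_mul, hb1]; simp
    rw [Matrix.map_mul, e2, Matrix.transpose_mul]
    calc (d.H'.map (ex E))ᵀ * (cM Qb)ᵀ * ((cM Pb)ᵀ * d.Y' * cM Qᵀ)
        = (d.H'.map (ex E))ᵀ * ((cM Qb)ᵀ * (cM Pb)ᵀ) * d.Y' * cM Qᵀ := by
          simp only [Matrix.mul_assoc]
      _ = _ := by rw [e3, Matrix.mul_one]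

end NFD

end Pool.Agent.H1.CU
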