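import Mathlib

/-! Cube project, CUBE91 part B.4-B.6: fields inside Laurent series, regular matrices, gauges. -/

namespace Pool.Agent.H1.CU

open Matrix HahnSeries

/-- A field `F` with an embedding in `E((lam))` which is compatible with `lam d/dlam`. -/
structure LF (E F : Type*) [Field E] [Field F] where
  ex : F →+* LaurentSeries E
  lam : F
  ex_lam : ex lam = HahnSeries.single 1 1
  cst : E →+* F
  ex_cst : ∀ a, ex (cst a) = HahnSeries.C a
  nab : F → F
  ex_nab : ∀ x (i : ℤ), (ex (nab x)).coeff i = (i : E) * (ex x).coeff i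

variable {E F : Type*} [Field E] [Field F]

namespace LF

variable (L : LF E F)

theorem ex_inj : Function.Injective L.ex := L.ex.injective

theorem nab_add (x y : F) : L.nab (x + y) = L.nab x + L.nab y := by
  apply L.ex_inj
  ext i
  rw [L.ex_nab]
  simp only [map_add, HahnSeries.coeff_add, L.ex_nab]
  ring

theorem nab_mul (x y : F) : L.nab (x * y) = L.nab x * y + x * L.nab y := by
  apply L.ex_inj
  ext i
  rw [L.ex_nab]
  have hs : ∀ z, (L.ex (L.nab z)).support ⊆ (L.ex z).support := by
    intro z j hj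
    rw [HahnSeries.mem_support] at hj ⊢
    intro h
    exact hj (by rw [L.ex_nab, h, mul_zero])
  rw [map_add, map_mul, map_mul, map_mul, HahnSeries.coeff_add, HahnSeries.coeff_mul,
    HahnSeries.coeff_mul_left' (L.ex x).isPWO_support (hs x),
    HahnSeries.coeff_mul_right' (L.ex y).isPWO_support (hs y), Finset.mul_sum,
    ← Finset.sum_add_distrib]
  refine Finset.sum_congr rfl fun ij hij => ?_
  have hij' : ij.1 + ij.2 = i := (Finset.mem_addAntidiagonal.mp hij).2.2
  rw [L.ex_nab, L.ex_nab, ← hij']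
  push_cast
  ring

theorem nab_zero : L.nab 0 = 0 := by
  apply L.ex_inj
  ext i
  rw [L.ex_nab]
  simp

theorem nab_one : L.nab 1 = 0 := by
  apply L.ex_inj
  ext i
  rw [L.ex_nab]
  by_cases h : i = 0
  · subst h; simp
  · simp [HahnSeries.coeff_one, h]

theorem nab_cst (a : E) : L.nab (L.cst a) = 0 := by
  apply L.ex_inj
  ext i
  rw [L.ex_nab, L.ex_cst]
  by_cases h : i = 0
  · subst h; simp
  · simp [HahnSeries.C_apply, HahnSeries.coeff_single, h]

theorem nab_lam : L.nab L.lam = L.lam := by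
  apply L.ex_inj
  ext i
  rw [L.ex_nab, L.ex_lam]
  by_cases h : i = 1
  · subst h; simp
  · simp [HahnSeries.coeff_single, h]

theorem lam_ne : L.lam ≠ 0 := by
  intro h
  have := L.ex_lam
  rw [h, map_zero] at this
  have h2 := congrArg (fun z : LaurentSeries E => z.coeff 1) this
  simp at h2

theorem nab_lam_inv : L.nab L.lam⁻¹ = -L.lam⁻¹ := by
  have h := L.nab_mul L.lam L.lam⁻¹
  rw [mul_inv_cancel₀ L.lam_ne, L.nab_one, L.nab_lam, mul_inv_cancel₀ L.lam_ne] at h
  have h2 : L.lam * L.nab L.lam⁻¹ = -1 := by linear_combination -h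
  have h3 := congrArg (fun z => L.lam⁻¹ * z) h2
  simp only [← mul_assoc, inv_mul_cancel₀ L.lam_ne, one_mul] at h3
  rw [h3]; ring

theorem nab_sum {ι : Type*} (s : Finset ι) (f : ι → F) :
    L.nab (∑ i ∈ s, f i) = ∑ i ∈ s, L.nab (f i) := by
  classical
  induction s using Finset.induction_on with
  | empty => simp [L.nab_zero]
  | insert a s ha ih => rw [Finset.sum_insert ha, Finset.sum_insert ha, L.nab_add, ih]

theorem nab_neg (x : F) : L.nab (-x) = -L.nab x := by
  have h := L.nab_add x (-x)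
  rw [add_neg_cancel, L.nab_zero] at h
  linear_combination -h

/-- Regular elements: no pole at `lam = 0`. -/
def reg (x : F) : Prop := ∀ i : ℤ, i < 0 → (L.ex x).coeff i = 0

/-- The value at `lam = 0`. -/
noncomputable def v0 (x : F) : E := (L.ex x).coeff 0

theorem reg_iff (x : F) : L.reg x ↔ ∃ f : PowerSeries E, HahnSeries.ofPowerSeries ℤ E f = L.ex x := by
  constructor
  · intro h
    refine ⟨PowerSeries.mk fun n => (L.ex x).coeff n, ?_⟩
    ext i
    rcases le_or_gt 0 i with hi | hi
    · obtain ⟨m, rfl⟩ := Int.eq_ofNat_of_zero_le hi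
      rw [HahnSeries.ofPowerSeries_apply_coeff]
      simp
    · rw [h i hi, LaurentSeries_coeff_neg _ hi]
  · rintro ⟨f, hf⟩ i hi
    rw [← hf, LaurentSeries_coeff_neg _ hi]
where
  LaurentSeries_coeff_neg (f : PowerSeries E) {i : ℤ} (hi : i < 0) :
      (HahnSeries.ofPowerSeries ℤ E f).coeff i = 0 := by
    rw [HahnSeries.ofPowerSeries_apply, HahnSeries.embDomain_of_notMem_range]
    rintro ⟨m, hm⟩
    simp only [Nat.castOrderEmbedding_apply] at hm
    omega

theorem reg_add {x y : F} (hx : L.reg x) (hy : L.reg y) : L.reg (x + y) := by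
  intro i hi
  rw [map_add, HahnSeries.coeff_add, hx i hi, hy i hi, add_zero]

theorem reg_neg {x : F} (hx : L.reg x) : L.reg (-x) := by
  intro i hi
  rw [map_neg, HahnSeries.coeff_neg, hx i hi, neg_zero]

theorem reg_sub {x y : F} (hx : L.reg x) (hy : L.reg y) : L.reg (x - y) := by
  rw [sub_eq_add_neg]
  exact L.reg_add hx (L.reg_neg hy)

theorem reg_zero : L.reg 0 := by
  intro i _
  simp

theorem reg_mul {x y : F} (hx : L.reg x) (hy : L.reg y) : L.reg (x * y) := by
  obtain ⟨f, hf⟩ := (L.reg_iff x).mp hx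
  obtain ⟨g, hg⟩ := (L.reg_iff y).mp hy
  exact (L.reg_iff _).mpr ⟨f * g, by rw [map_mul, map_mul, hf, hg]⟩

theorem reg_sum {ι : Type*} (s : Finset ι) {f : ι → F} (h : ∀ i ∈ s, L.reg (f i)) :
    L.reg (∑ i ∈ s, f i) := by
  classical
  induction s using Finset.induction_on with
  | empty => simpa using L.reg_zero
  | insert a s ha ih =>
    rw [Finset.sum_insert ha]
    exact L.reg_add (h a (Finset.mem_insert_self a s))
      (ih fun i hi => h i (Finset.mem_insert_of_mem hi))

theorem reg_cst (a : E) : L.reg (L.cst a) := by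
  intro i hi
  rw [L.ex_cst, HahnSeries.C_apply, HahnSeries.coeff_single_of_ne (by omega)]

theorem reg_one : L.reg 1 := by
  have := L.reg_cst 1
  rwa [map_one] at this

theorem reg_lam : L.reg L.lam := by
  intro i hi
  rw [L.ex_lam, HahnSeries.coeff_single_of_ne (by omega)]

theorem reg_nab {x : F} (hx : L.reg x) : L.reg (L.nab x) := by
  intro i hi
  rw [L.ex_nab, hx i hi, mul_zero]

theorem v0_add (x y : F) : L.v0 (x + y) = L.v0 x + L.v0 y := by
  simp [v0]

theorem v0_sub (x y : F) : L.v0 (x - y) = L.v0 x - L.v0 y := by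
  simp [v0]

theorem v0_zero : L.v0 0 = 0 := by simp [v0]

theorem v0_nab (x : F) : L.v0 (L.nab x) = 0 := by
  unfold v0
  rw [L.ex_nab]
  simp

theorem v0_cst (a : E) : L.v0 (L.cst a) = a := by
  unfold v0
  rw [L.ex_cst]
  simp

theorem v0_one : L.v0 1 = 1 := by
  have := L.v0_cst 1
  rwa [map_one] at this

theorem v0_lam : L.v0 L.lam = 0 := by
  unfold v0
  rw [L.ex_lam, HahnSeries.coeff_single_of_ne (by decide)]

theorem v0_ofPowerSeries {x : F} {f : PowerSeries E}
    (hf : HahnSeries.ofPowerSeries ℤ E f = L.ex x) : L.v0 x = PowerSeries.constantCoeff f := by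
  unfold v0
  rw [← hf]
  have := HahnSeries.ofPowerSeries_apply_coeff (Γ := ℤ) f 0
  simpa using this

theorem v0_mul {x y : F} (hx : L.reg x) (hy : L.reg y) : L.v0 (x * y) = L.v0 x * L.v0 y := by
  obtain ⟨f, hf⟩ := (L.reg_iff x).mp hx
  obtain ⟨g, hg⟩ := (L.reg_iff y).mp hy
  rw [L.v0_ofPowerSeries hf, L.v0_ofPowerSeries hg, ← map_mul]
  exact L.v0_ofPowerSeries (by rw [map_mul, map_mul, hf, hg])

theorem v0_sum {ι : Type*} (s : Finset ι) (f : ι → F) :
    L.v0 (∑ i ∈ s, f i) = ∑ i ∈ s, L.v0 (f i) := by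
  classical
  induction s using Finset.induction_on with
  | empty => simp [L.v0_zero]
  | insert a s ha ih => rw [Finset.sum_insert ha, Finset.sum_insert ha, L.v0_add, ih]

/-- Division by `lam` of a regular element with value `0`. -/
theorem reg_lam_inv_mul {x : F} (hx : L.reg x) (h0 : L.v0 x = 0) : L.reg (L.lam⁻¹ * x) := by
  obtain ⟨f, hf⟩ := (L.reg_iff x).mp hx
  have h1 : PowerSeries.constantCoeff f = 0 := by rw [← L.v0_ofPowerSeries hf, h0]
  obtain ⟨g, hg⟩ := PowerSeries.X_dvd_iff.mpr h1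
  refine (L.reg_iff _).mpr ⟨g, ?_⟩
  have h2 : L.ex L.lam * HahnSeries.ofPowerSeries ℤ E g = L.ex x := by
    rw [L.ex_lam, ← hf, hg, map_mul, HahnSeries.ofPowerSeries_X]
  have h3 : L.ex L.lam ≠ 0 := by
    rw [Ne, map_eq_zero]
    exact L.lam_ne
  rw [map_mul, map_inv₀, ← h2, ← mul_assoc, inv_mul_cancel₀ h3, one_mul]

/-! ### Matrices -/

variable {n m k : Type*}

/-- regular matrices -/
def Reg (G : Matrix n m F) : Prop := ∀ i j, L.reg (G i j)

/-- the value of a matrix at `lam = 0` -/
noncomputable def val (G : Matrix n m F) : Matrix n m E := G.map L.v0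

/-- the derivative of a matrix -/
noncomputable def dM (G : Matrix n m F) : Matrix n m F := G.map L.nab

variable {L}

theorem Reg.mul [Fintype m] {A : Matrix n m F} {B : Matrix m k F} (hA : L.Reg A) (hB : L.Reg B) :
    L.Reg (A * B) := fun i j => by
  rw [Matrix.mul_apply]
  exact L.reg_sum _ fun l _ => L.reg_mul (hA i l) (hB l j)

theorem Reg.add {A B : Matrix n m F} (hA : L.Reg A) (hB : L.Reg B) : L.Reg (A + B) :=
  fun i j => L.reg_add (hA i j) (hB i j)

theorem Reg.sub {A B : Matrix n m F} (hA : L.Reg A) (hB : L.Reg B) : L.Reg (A - B) :=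
  fun i j => L.reg_sub (hA i j) (hB i j)

theorem Reg.smul {a : F} {A : Matrix n m F} (ha : L.reg a) (hA : L.Reg A) : L.Reg (a • A) :=
  fun i j => L.reg_mul ha (hA i j)

theorem Reg.transpose {A : Matrix n m F} (hA : L.Reg A) : L.Reg Aᵀ := fun i j => hA j i

theorem Reg.one [DecidableEq n] : L.Reg (1 : Matrix n n F) := fun i j => by
  by_cases h : i = j
  · subst h; simpa using L.reg_one
  · simpa [Matrix.one_apply_ne h] using L.reg_zero

theorem Reg.map_cst (A : Matrix n m E) : L.Reg (A.map L.cst) := fun i j => L.reg_cst _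

theorem val_mul [Fintype m] {A : Matrix n m F} {B : Matrix m k F} (hA : L.Reg A) (hB : L.Reg B) :
    L.val (A * B) = L.val A * L.val B := by
  ext i j
  simp only [val, Matrix.map_apply, Matrix.mul_apply]
  rw [L.v0_sum]
  exact Finset.sum_congr rfl fun l _ => L.v0_mul (hA i l) (hB l j)

theorem val_add (A B : Matrix n m F) : L.val (A + B) = L.val A + L.val B := by
  ext i j
  exact L.v0_add _ _

theorem val_sub (A B : Matrix n m F) : L.val (A - B) = L.val A - L.val B := by
  ext i j
  exact L.v0_sub _ _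

theorem val_cst (A : Matrix n m E) : L.val (A.map L.cst) = A := by
  ext i j
  exact L.v0_cst _

theorem val_one [DecidableEq n] : L.val (1 : Matrix n n F) = 1 := by
  ext i j
  by_cases h : i = j
  · subst h; simp [val, L.v0_one]
  · simp [val, Matrix.one_apply_ne h, L.v0_zero]

theorem val_transpose (A : Matrix n m F) : L.val Aᵀ = (L.val A)ᵀ := rfl

theorem dM_mul [Fintype m] (A : Matrix n m F) (B : Matrix m k F) :
    L.dM (A * B) = L.dM A * B + A * L.dM B := by
  ext i j
  simp only [dM, Matrix.map_apply, Matrix.mul_apply, Matrix.add_apply]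
  rw [L.nab_sum, ← Finset.sum_add_distrib]
  exact Finset.sum_congr rfl fun l _ => L.nab_mul _ _

theorem dM_add (A B : Matrix n m F) : L.dM (A + B) = L.dM A + L.dM B := by
  ext i j
  exact L.nab_add _ _

theorem dM_cst (A : Matrix n m E) : L.dM (A.map L.cst) = 0 := by
  ext i j
  exact L.nab_cst _

theorem dM_one [DecidableEq n] : L.dM (1 : Matrix n n F) = 0 := by
  ext i j
  by_cases h : i = j
  · subst h; simp [dM, L.nab_one]
  · simp [dM, Matrix.one_apply_ne h, L.nab_zero]

variable (L)

/-- `G'` is the gauge transform of `G` by the invertible matrix `H` (with inverse `H'`). -/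
structure Gauge [Fintype n] [Fintype m] [DecidableEq n] [DecidableEq m] (G : Matrix n n F)
    (G' : Matrix m m F) (H : Matrix n m F) (H' : Matrix m n F) : Prop where
  mul_inv : H * H' = 1
  inv_mul : H' * H = 1
  eq : G' = H' * G * H + H' * L.dM H

variable {L}

theorem Gauge.trans [Fintype n] [Fintype m] [Fintype k] [DecidableEq n] [DecidableEq m]
    [DecidableEq k] {G : Matrix n n F} {G' : Matrix m m F} {G'' : Matrix k k F}
    {H₁ : Matrix n m F} {H₁' : Matrix m n F} {H₂ : Matrix m k F} {H₂' : Matrix k m F}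
    (h₁ : L.Gauge G G' H₁ H₁') (h₂ : L.Gauge G' G'' H₂ H₂') :
    L.Gauge G G'' (H₁ * H₂) (H₂' * H₁') where
  mul_inv := by
    rw [Matrix.mul_assoc, ← Matrix.mul_assoc H₂, h₂.mul_inv, Matrix.one_mul, h₁.mul_inv]
  inv_mul := by
    rw [Matrix.mul_assoc, ← Matrix.mul_assoc H₁', h₁.inv_mul, Matrix.one_mul, h₂.inv_mul]
  eq := by
    rw [h₂.eq, h₁.eq, dM_mul]
    have e : H₁' * H₁ = 1 := h₁.inv_mul
    simp only [Matrix.mul_add, Matrix.add_mul, Matrix.mul_assoc]
    rw [← Matrix.mul_assoc H₁' H₁, e, Matrix.one_mul]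
    abel

/-- A constant change of basis. -/
theorem Gauge.const [Fintype n] [Fintype m] [DecidableEq n] [DecidableEq m] (G : Matrix n n F)
    {P : Matrix n m E} {Q : Matrix m n E} (hPQ : P * Q = 1) (hQP : Q * P = 1) :
    L.Gauge G (Q.map L.cst * G * P.map L.cst) (P.map L.cst) (Q.map L.cst) where
  mul_inv := by
    rw [← Matrix.map_mul, hPQ]
    simp
  inv_mul := by
    rw [← Matrix.map_mul, hQP]
    simp
  eq := by
    rw [dM_cst, Matrix.mul_zero, add_zero]

end LF

end Pool.Agent.H1.CU
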